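import Mathlib

set_option autoImplicit false

/-! Coarse components at scale `r` of a subset of a set with an `ℕ`-valued pseudometric. -/

namespace Pool.Agent.Lib.MP_1df68a_gt

open Relation

variable {X : Type*}

/-- `d` is a pseudometric with values in `ℕ`. -/
structure IsPM (d : X → X → ℕ) : Prop where
  self : ∀ x, d x x = 0
  symm : ∀ x y, d x y = d y x
  tri : ∀ x y z, d x z ≤ d x y + d y z

/-- One step of length at most `r` inside `A`. -/
def Step (d : X → X → ℕ) (A : Set X) (r : ℕ) (x y : X) : Prop := x ∈ A ∧ y ∈ A ∧ d x y ≤ r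

/-- All `r`-components of `A` have diameter at most `D`. -/
def Bd (d : X → X → ℕ) (A : Set X) (r D : ℕ) : Prop :=
  ∀ x y, ReflTransGen (Step d A r) x y → d x y ≤ D

variable {d : X → X → ℕ}

lemma Bd.mono {A A' : Set X} {r r' D D' : ℕ} (h : Bd d A r D) (hA : A' ⊆ A) (hr : r' ≤ r)
    (hD : D ≤ D') : Bd d A' r' D' := by
  intro x y hxy
  refine (h x y ?_).trans hD
  induction hxy with
  | refl => exact ReflTransGen.refl
  | tail _ hab ih => exact ih.tail ⟨hA hab.1, hA hab.2.1, hab.2.2.trans hr⟩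

lemma bd_empty (hd : IsPM d) (r D : ℕ) : Bd d (∅ : Set X) r D := by
  intro x y hxy
  cases hxy.cases_head with
  | inl h => subst h; simp [hd.self]
  | inr h =>
    obtain ⟨c, hc, _⟩ := h
    exact absurd hc.1 (by simp)

/-- Components are bounded if a label separates them and the labelled parts have bounded
components. -/
lemma Bd.of_label {ι : Type*} {A : Set X} {r D : ℕ} (κ : X → ι)
    (h1 : ∀ x ∈ A, ∀ y ∈ A, d x y ≤ r → κ x = κ y)
    (h2 : ∀ i, Bd d (A ∩ {x | κ x = i}) r D) : Bd d A r D := by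
  intro x y hxy
  have key : ∀ y, ReflTransGen (Step d A r) x y →
      κ x = κ y ∧ ReflTransGen (Step d (A ∩ {z | κ z = κ x}) r) x y := by
    intro y hy
    induction hy with
    | refl => exact ⟨rfl, ReflTransGen.refl⟩
    | tail _ hbc ih =>
      have hc := h1 _ hbc.1 _ hbc.2.1 hbc.2.2
      refine ⟨ih.1.trans hc, ih.2.tail ⟨⟨hbc.1, ih.1.symm⟩, ⟨hbc.2.1, ?_⟩, hbc.2.2⟩⟩
      exact (ih.1.trans hc).symm
  exact h2 (κ x) x y (key y hxy).2

/-- The saturated union lemma. -/
lemma Bd.union (hd : IsPM d) {A A' : Set X} {ρ r D D' : ℕ} (hA : Bd d A ρ D) (hA' : Bd d A' r D')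
    (hr : D + 2 * ρ ≤ r) : Bd d (A ∪ A') ρ (2 * D + 2 * ρ + D') := by
  intro x y hxy
  rcases hxy.cases_head with h | ⟨c, hc, _⟩
  · subst h; simp [hd.self]
  have hx : x ∈ A ∪ A' := hc.1
  have key : ∀ y, ReflTransGen (Step d (A ∪ A') ρ) x y →
      (y ∈ A ∧ ReflTransGen (Step d A ρ) x y) ∨
      ∃ f l, l ∈ A' ∧ d x f ≤ D + ρ ∧ ReflTransGen (Step d A' r) f l ∧
        (y = l ∨ ∃ q, d l q ≤ ρ ∧ ReflTransGen (Step d A ρ) q y ∧ y ∈ A) := by
    intro y hy
    induction hy with
    | refl =>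
      rcases hx with h | h
      · exact Or.inl ⟨h, ReflTransGen.refl⟩
      · exact Or.inr ⟨x, x, h, by simp [hd.self], ReflTransGen.refl, Or.inl rfl⟩
    | @tail b c _ hbc ih =>
      obtain ⟨-, hcU, hbcd⟩ := hbc
      rcases ih with ⟨hb, hxb⟩ | ⟨f, l, hl, hxf, hfl, hlast⟩
      · rcases hcU with hc | hc
        · exact Or.inl ⟨hc, hxb.tail ⟨hb, hc, hbcd⟩⟩
        · refine Or.inr ⟨c, c, hc, ?_, ReflTransGen.refl, Or.inl rfl⟩
          have := hd.tri x b c
          have := hA x b hxb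
          omega
      · rcases hlast with rfl | ⟨q, hlq, hqb, hbA⟩
        · rcases hcU with hc | hc
          · exact Or.inr ⟨f, b, hl, hxf, hfl, Or.inr ⟨c, hbcd, ReflTransGen.refl, hc⟩⟩
          · exact Or.inr ⟨f, c, hc, hxf, hfl.tail ⟨hl, hc, by omega⟩, Or.inl rfl⟩
        · rcases hcU with hc | hc
          · exact Or.inr ⟨f, l, hl, hxf, hfl, Or.inr ⟨q, hlq, hqb.tail ⟨hbA, hc, hbcd⟩, hc⟩⟩
          · refine Or.inr ⟨f, c, hc, hxf, hfl.tail ⟨hl, hc, ?_⟩, Or.inl rfl⟩
            have h1 := hd.tri l q c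
            have h2 := hd.tri q b c
            have h3 := hA q b hqb
            omega
  rcases key y hxy with ⟨_, h⟩ | ⟨f, l, _, hxf, hfl, hlast⟩
  · have := hA x y h
    omega
  · have h1 := hA' f l hfl
    have h2 := hd.tri x f y
    rcases hlast with rfl | ⟨q, hlq, hqy, _⟩
    · omega
    · have h3 := hd.tri f l y
      have h4 := hd.tri l q y
      have h5 := hA q y hqy
      omega

/-- The `t`-neighbourhood of a set. -/
def Nbd (d : X → X → ℕ) (t : ℕ) (A : Set X) : Set X := {x | ∃ y ∈ A, d x y ≤ t}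

lemma Bd.thicken (hd : IsPM d) {A : Set X} {r t D : ℕ} (hA : Bd d A (r + 2 * t) D) :
    Bd d (Nbd d t A) r (D + 2 * t) := by
  intro x y hxy
  rcases hxy.cases_head with h | ⟨c, hc, _⟩
  · subst h; simp [hd.self]
  obtain ⟨x', hx', hxx'⟩ := hc.1
  have key : ∀ y, ReflTransGen (Step d (Nbd d t A) r) x y →
      ∃ y' ∈ A, d y y' ≤ t ∧ ReflTransGen (Step d A (r + 2 * t)) x' y' := by
    intro y hy
    induction hy with
    | refl => exact ⟨x', hx', hxx', ReflTransGen.refl⟩
    | @tail b c _ hbc ih =>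
      obtain ⟨b', hb', hbb', hchain⟩ := ih
      obtain ⟨-, ⟨c', hc', hcc'⟩, hbcd⟩ := hbc
      refine ⟨c', hc', hcc', hchain.tail ⟨hb', hc', ?_⟩⟩
      have h1 := hd.tri b' b c'
      have h2 := hd.tri b c c'
      have h3 := hd.symm b b'
      omega
  obtain ⟨y', hy', hyy', hchain⟩ := key y hxy
  have h1 := hA x' y' hchain
  have h2 := hd.tri x x' y
  have h3 := hd.tri x' y' y
  have h4 := hd.symm y y'
  omega

section Group

variable {G : Type*} [Group G] {e : G → G → ℕ}

/-- Left translates have the same coarse components. -/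
lemma Bd.translate (hinv : ∀ g x y, e (g * x) (g * y) = e x y) {A : Set G} {r D : ℕ}
    (hA : Bd e A r D) (g : G) : Bd e {x | g⁻¹ * x ∈ A} r D := by
  intro x y hxy
  have key : ∀ y, ReflTransGen (Step e {x | g⁻¹ * x ∈ A} r) x y →
      ReflTransGen (Step e A r) (g⁻¹ * x) (g⁻¹ * y) := by
    intro y hy
    induction hy with
    | refl => exact ReflTransGen.refl
    | tail _ hbc ih =>
      refine ih.tail ⟨hbc.1, hbc.2.1, ?_⟩
      rw [hinv]
      exact hbc.2.2
  have := hA _ _ (key y hxy)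
  rwa [hinv] at this

end Group

end Pool.Agent.Lib.MP_1df68a_gt
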