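import Pool.Agent.Results.MP_1df68a_gt.FiberedC

set_option autoImplicit false

/-! Special cases of `Results/MP_1df68a_gt/FiberedC.lean` (sanity checks). -/

namespace Pool.Agent.Lib.MP_1df68a_gt

open Monoid

/-- An invariant proper metric with property P on a group gives one on the coset space of the
trivial subgroup. -/
lemma trivial_coset {Γ : Type} [Group Γ] (N : Subgroup Γ) (hN : N = ⊥) (d : Γ → Γ → ℝ)
    (hd : ProperMetric d) (hinv : ∀ g x y : Γ, d (g * x) (g * y) = d x y) :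
    ∃ d' : Γ ⧸ N → Γ ⧸ N → ℝ, ProperMetric d' ∧
      (∀ (g : Γ) (x y : Γ ⧸ N), d' (g • x) (g • y) = d' x y) ∧
      (∀ x y : Γ, d' (x : Γ ⧸ N) (y : Γ ⧸ N) = d x y) := by
  have hout : ∀ x : Γ, ((x : Γ ⧸ N)).out = x := by
    intro x
    have h := QuotientGroup.out_eq' (x : Γ ⧸ N)
    rw [QuotientGroup.eq] at h
    have h' : ((x : Γ ⧸ N)).out⁻¹ * x ∈ (⊥ : Subgroup Γ) := hN ▸ h
    rwa [Subgroup.mem_bot, inv_mul_eq_one] at h'
  have hsurj : ∀ q : Γ ⧸ N, ∃ x : Γ, (x : Γ ⧸ N) = q := fun q => ⟨q.out, QuotientGroup.out_eq' q⟩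
  refine ⟨fun q q' => d q.out q'.out, ⟨fun x y => hd.symm _ _, fun x => hd.self _, ?_,
    fun x y z => hd.tri _ _ _, ?_⟩, ?_, ?_⟩
  · intro x y hxy
    rw [← QuotientGroup.out_eq' x, ← QuotientGroup.out_eq' y, hd.sep _ _ hxy]
  · intro x r
    refine ((hd.fin x.out r).image (fun g : Γ => (g : Γ ⧸ N))).subset ?_
    intro y hy
    exact ⟨y.out, hy, QuotientGroup.out_eq' y⟩
  · intro g x y
    obtain ⟨x, rfl⟩ := hsurj x
    obtain ⟨y, rfl⟩ := hsurj y
    show d ((g * x : Γ) : Γ ⧸ N).out ((g * y : Γ) : Γ ⧸ N).out = d (x : Γ ⧸ N).out (y : Γ ⧸ N).out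
    rw [hout, hout, hout, hout, hinv]
  · intro x y
    show d (x : Γ ⧸ N).out (y : Γ ⧸ N).out = _
    rw [hout, hout]

lemma trivial_coset_apc {Γ : Type} [Group Γ] (N : Subgroup Γ)
    (d : Γ → Γ → ℝ) (hC : HasAPC d) (d' : Γ ⧸ N → Γ ⧸ N → ℝ)
    (h : ∀ x y : Γ, d' (x : Γ ⧸ N) (y : Γ ⧸ N) = d x y) : HasAPC d' := by
  intro R hR
  obtain ⟨n, U, hU1, hU2, hU3⟩ := hC R hR
  have hsurj : ∀ q : Γ ⧸ N, ∃ x : Γ, (x : Γ ⧸ N) = q := fun q => ⟨q.out, QuotientGroup.out_eq' q⟩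
  refine ⟨n, fun k => {V | ∃ W ∈ U k, V = (fun g : Γ => (g : Γ ⧸ N)) '' W}, ?_, ?_, ?_⟩
  · intro k hk
    obtain ⟨B, hB⟩ := hU1 k hk
    refine ⟨B, ?_⟩
    rintro _ ⟨W, hW, rfl⟩ _ ⟨x, hx, rfl⟩ _ ⟨y, hy, rfl⟩
    show d' (x : Γ ⧸ N) (y : Γ ⧸ N) ≤ B
    rw [h]
    exact hB W hW x hx y hy
  · rintro k hk _ ⟨W, hW, rfl⟩ _ ⟨W', hW', rfl⟩ hne _ ⟨x, hx, rfl⟩ _ ⟨y, hy, rfl⟩
    show R k < d' (x : Γ ⧸ N) (y : Γ ⧸ N)
    rw [h]
    exact hU2 k hk W hW W' hW' (fun hWW => hne (by rw [hWW])) x hx y hy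
  · intro q
    obtain ⟨x, rfl⟩ := hsurj q
    obtain ⟨k, hk, V, hV, hx⟩ := hU3 x
    exact ⟨k, hk, _, ⟨V, hV, rfl⟩, x, hx, rfl⟩

/-- Left multiplication through a homomorphism, as a homomorphism to permutations. -/
def leftMul {Γ L : Type} [Group Γ] [Group L] (π : Γ →* L) : Γ →* Equiv.Perm L where
  toFun g := Equiv.mulLeft (π g)
  map_one' := by ext x; simp
  map_mul' g h := by ext x; simp

/-- If `H` and `K` map to a group `L` with asymptotic property C, compatibly on `C` and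
injectively on `C`, then `H *_C K` has asymptotic property C. -/
theorem compatible_maps (G : Bool → Type) [∀ i, Group (G i)] (C : Type) [Group C]
    (φ : ∀ i, C →* G i) (hφ : ∀ i, Function.Injective (φ i))
    (hG : ∀ i, ∃ d : G i → G i → ℝ, ProperMetric d ∧ (∀ g x y : G i, d (g * x) (g * y) = d x y) ∧
      HasAPC d)
    (L : Type) [Group L] (dL : L → L → ℝ) (hL : ProperMetric dL)
    (hLi : ∀ g x y : L, dL (g * x) (g * y) = dL x y) (hLC : HasAPC dL)
    (π : ∀ i, G i →* L) (hπ : ∀ c, π false (φ false c) = π true (φ true c))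
    (hinj : ∀ c, π true (φ true c) = 1 → c = 1)
    (d : PushoutI φ → PushoutI φ → ℝ) (hd : ProperMetric d)
    (hdi : ∀ g x y : PushoutI φ, d (g * x) (g * y) = d x y) : HasAPC d := by
  refine Results.MP_1df68a_gt.FiberedC.result G C φ hφ hG ⊥ ?_ L dL (fun i => leftMul (π i)) 1
    hL hLC ?_ ?_ ?_ ?_ d hd hdi
  · intro i
    obtain ⟨dG, h1, h2, h3⟩ := hG i
    obtain ⟨d', h4, h5, h6⟩ := trivial_coset ((⊥ : Subgroup C).map (φ i)) (by simp) dG h1 h2
    exact ⟨d', h4, h5, trivial_coset_apc _ dG h3 d' h6⟩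
  · intro i g x y
    exact hLi _ _ _
  · intro c
    ext x
    show π false (φ false c) * x = π true (φ true c) * x
    rw [hπ]
  · intro c hc
    rw [Subgroup.mem_bot] at hc
    subst hc
    show π true (φ true 1) * 1 = 1
    simp
  · -- a proper left-invariant metric on `C`, restricted from `L`
    obtain ⟨d', h4, h5, h6⟩ := trivial_coset (⊥ : Subgroup C) rfl
      (fun x y => dL (π true (φ true x)) (π true (φ true y)))
      ⟨fun x y => hL.symm _ _, fun x => hL.self _, (by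
        intro x y hxy
        have := hL.sep _ _ hxy
        have h1 : π true (φ true (x⁻¹ * y)) = 1 := by
          rw [map_mul, map_mul, map_inv, map_inv, this, inv_mul_cancel]
        have := hinj _ h1
        rwa [inv_mul_eq_one] at this), fun x y z => hL.tri _ _ _, (by
        intro x r
        refine Set.Finite.preimage (f := fun y => π true (φ true y)) ?_
          (hL.fin (π true (φ true x)) r)
        intro x _ y _ hxy
        have h1 : π true (φ true (x⁻¹ * y)) = 1 := by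
          rw [map_mul, map_mul, map_inv, map_inv]
          rw [show π true (φ true x) = π true (φ true y) from hxy, inv_mul_cancel]
        have := hinj _ h1
        rwa [inv_mul_eq_one] at this)⟩
      (by
        intro g x y
        show dL (π true (φ true (g * x))) (π true (φ true (g * y))) = _
        rw [map_mul, map_mul, map_mul, map_mul, hLi])
    refine ⟨d', h4, h5, 1, fun R hR => ⟨fun _ => {{((1 : C) : C ⧸ (⊥ : Subgroup C))}}, ?_, ?_, ?_⟩⟩
    · intro k _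
      refine ⟨0, ?_⟩
      rintro V rfl x rfl y rfl
      rw [h4.self]
    · rintro k _ V rfl W rfl hne
      exact absurd rfl hne
    · rintro x ⟨c, hc, rfl⟩
      refine ⟨0, Nat.one_pos, _, rfl, ?_⟩
      have hc' : π true (φ true c) * 1 = 1 := hc
      rw [mul_one] at hc'
      rw [hinj c hc']
      rfl

/-- If the inclusion of `C` in `H` extends to a homomorphism `K → H` (for example for the doubles
`H *_C H`, or if `C` is a retract of `K`), then `H *_C K` has asymptotic property C. -/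
theorem extending_map (G : Bool → Type) [∀ i, Group (G i)] (C : Type) [Group C]
    (φ : ∀ i, C →* G i) (hφ : ∀ i, Function.Injective (φ i))
    (hG : ∀ i, ∃ d : G i → G i → ℝ, ProperMetric d ∧ (∀ g x y : G i, d (g * x) (g * y) = d x y) ∧
      HasAPC d)
    (r : G true →* G false) (hr : ∀ c, r (φ true c) = φ false c)
    (d : PushoutI φ → PushoutI φ → ℝ) (hd : ProperMetric d)
    (hdi : ∀ g x y : PushoutI φ, d (g * x) (g * y) = d x y) : HasAPC d := by
  obtain ⟨dG, h1, h2, h3⟩ := hG false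
  refine compatible_maps G C φ hφ hG (G false) dG h1 h2 h3
    (fun i => match i with
      | false => MonoidHom.id _
      | true => r) ?_ ?_ d hd hdi
  · intro c
    show φ false c = r (φ true c)
    rw [hr]
  · intro c hc
    have hc' : r (φ true c) = 1 := hc
    rw [hr] at hc'
    exact hφ false (by rw [hc', map_one])

/-- If `C` is normal in `H` and `K` and the quotients have asymptotic property C, then `H *_C K`
has asymptotic property C. -/
theorem normal_core (G : Bool → Type) [∀ i, Group (G i)] (C : Type) [Group C]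
    (φ : ∀ i, C →* G i) (hφ : ∀ i, Function.Injective (φ i))
    (hG : ∀ i, ∃ d : G i → G i → ℝ, ProperMetric d ∧ (∀ g x y : G i, d (g * x) (g * y) = d x y) ∧
      HasAPC d)
    [∀ i, (φ i).range.Normal]
    (hQ : ∀ i, ∃ d : G i ⧸ (φ i).range → G i ⧸ (φ i).range → ℝ, ProperMetric d ∧
      (∀ g x y : G i ⧸ (φ i).range, d (g * x) (g * y) = d x y) ∧ HasAPC d)
    (d : PushoutI φ → PushoutI φ → ℝ) (hd : ProperMetric d)
    (hdi : ∀ g x y : PushoutI φ, d (g * x) (g * y) = d x y) : HasAPC d := by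
  refine Results.MP_1df68a_gt.FiberedC.result G C φ hφ hG ⊤ ?_ PUnit (fun _ _ => 0)
    (fun i => 1) PUnit.unit ?_ ?_ ?_ ?_ ?_ ?_ d hd hdi
  · intro i
    have h : (⊤ : Subgroup C).map (φ i) = (φ i).range := by rw [MonoidHom.range_eq_map]
    rw [h]
    obtain ⟨dQ, h1, h2, h3⟩ := hQ i
    refine ⟨dQ, h1, ?_, h3⟩
    intro g x y
    have := h2 (g : G i ⧸ (φ i).range) x y
    have e : ∀ x : G i ⧸ (φ i).range, g • x = (g : G i ⧸ (φ i).range) * x := by
      intro x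
      obtain ⟨x, rfl⟩ := QuotientGroup.mk_surjective x
      rfl
    rw [e, e, this]
  · exact ⟨fun _ _ => rfl, fun _ => rfl, fun _ _ _ => rfl, fun _ _ _ => by simp,
      fun _ _ => Set.toFinite _⟩
  · intro R hR
    refine ⟨1, fun _ => {Set.univ}, ?_, ?_, ?_⟩
    · intro k _
      exact ⟨0, fun _ _ _ _ _ _ => le_rfl⟩
    · rintro k _ V rfl W rfl hne
      exact absurd rfl hne
    · intro x
      exact ⟨0, Nat.one_pos, _, rfl, trivial⟩
  · intro i g x y
    rfl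
  · intro c
    rfl
  · intro c _
    rfl
  · have hss : ∀ x y : C ⧸ (⊤ : Subgroup C), x = y := by
      intro x y
      obtain ⟨x, rfl⟩ := QuotientGroup.mk_surjective x
      obtain ⟨y, rfl⟩ := QuotientGroup.mk_surjective y
      rw [QuotientGroup.eq]
      trivial
    have : Finite (C ⧸ (⊤ : Subgroup C)) := by
      have : Subsingleton (C ⧸ (⊤ : Subgroup C)) := ⟨hss⟩
      infer_instance
    refine ⟨fun _ _ => 0, ⟨fun _ _ => rfl, fun _ => rfl, fun x y _ => hss x y,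
      fun _ _ _ => by simp, fun _ _ => Set.toFinite _⟩, fun _ _ _ => rfl, 1, fun R hR =>
      ⟨fun _ => {Set.univ}, ?_, ?_, ?_⟩⟩
    · intro k _
      exact ⟨0, fun _ _ _ _ _ _ => le_rfl⟩
    · rintro k _ V rfl W rfl hne
      exact absurd rfl hne
    · intro x _
      exact ⟨0, Nat.one_pos, _, rfl, trivial⟩

lemma trivial_coset_fin {Γ : Type} [Group Γ] (N : Subgroup Γ)
    (d : Γ → Γ → ℝ) (hC : FinAsdimOn d Set.univ) (d' : Γ ⧸ N → Γ ⧸ N → ℝ)
    (h : ∀ x y : Γ, d' (x : Γ ⧸ N) (y : Γ ⧸ N) = d x y) (Z : Set (Γ ⧸ N)) : FinAsdimOn d' Z := by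
  obtain ⟨m, hm⟩ := hC
  refine ⟨m, fun R hR => ?_⟩
  obtain ⟨U, hU1, hU2, hU3⟩ := hm R hR
  have hsurj : ∀ q : Γ ⧸ N, ∃ x : Γ, (x : Γ ⧸ N) = q := fun q => ⟨q.out, QuotientGroup.out_eq' q⟩
  refine ⟨fun k => {V | ∃ W ∈ U k, V = (fun g : Γ => (g : Γ ⧸ N)) '' W}, ?_, ?_, ?_⟩
  · intro k hk
    obtain ⟨B, hB⟩ := hU1 k hk
    refine ⟨B, ?_⟩
    rintro _ ⟨W, hW, rfl⟩ _ ⟨x, hx, rfl⟩ _ ⟨y, hy, rfl⟩
    show d' (x : Γ ⧸ N) (y : Γ ⧸ N) ≤ B
    rw [h]
    exact hB W hW x hx y hy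
  · rintro k hk _ ⟨W, hW, rfl⟩ _ ⟨W', hW', rfl⟩ hne _ ⟨x, hx, rfl⟩ _ ⟨y, hy, rfl⟩
    show R < d' (x : Γ ⧸ N) (y : Γ ⧸ N)
    rw [h]
    exact hU2 k hk W hW W' hW' (fun hWW => hne (by rw [hWW])) x hx y hy
  · intro q _
    obtain ⟨x, rfl⟩ := hsurj q
    obtain ⟨k, hk, V, hV, hx⟩ := hU3 x (Set.mem_univ x)
    exact ⟨k, hk, _, ⟨V, hV, rfl⟩, x, hx, rfl⟩

/-- If `C` has finite asymptotic dimension, then `H *_C K` has asymptotic property C. -/
theorem finite_asdim (G : Bool → Type) [∀ i, Group (G i)] (C : Type) [Group C]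
    (φ : ∀ i, C →* G i) (hφ : ∀ i, Function.Injective (φ i))
    (hG : ∀ i, ∃ d : G i → G i → ℝ, ProperMetric d ∧ (∀ g x y : G i, d (g * x) (g * y) = d x y) ∧
      HasAPC d)
    (hC : ∃ d : C → C → ℝ, ProperMetric d ∧ (∀ g x y : C, d (g * x) (g * y) = d x y) ∧
      FinAsdimOn d Set.univ)
    (d : PushoutI φ → PushoutI φ → ℝ) (hd : ProperMetric d)
    (hdi : ∀ g x y : PushoutI φ, d (g * x) (g * y) = d x y) : HasAPC d := by
  refine Results.MP_1df68a_gt.FiberedC.result G C φ hφ hG ⊥ ?_ PUnit (fun _ _ => 0)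
    (fun i => 1) PUnit.unit ?_ ?_ ?_ ?_ ?_ ?_ d hd hdi
  · intro i
    obtain ⟨dG, h1, h2, h3⟩ := hG i
    obtain ⟨d', h4, h5, h6⟩ := trivial_coset ((⊥ : Subgroup C).map (φ i)) (by simp) dG h1 h2
    exact ⟨d', h4, h5, trivial_coset_apc _ dG h3 d' h6⟩
  · exact ⟨fun _ _ => rfl, fun _ => rfl, fun _ _ _ => rfl, fun _ _ _ => by simp,
      fun _ _ => Set.toFinite _⟩
  · intro R hR
    refine ⟨1, fun _ => {Set.univ}, ?_, ?_, ?_⟩
    · intro k _
      exact ⟨0, fun _ _ _ _ _ _ => le_rfl⟩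
    · rintro k _ V rfl W rfl hne
      exact absurd rfl hne
    · intro x
      exact ⟨0, Nat.one_pos, _, rfl, trivial⟩
  · intro i g x y
    rfl
  · intro c
    rfl
  · intro c _
    rfl
  · obtain ⟨dC, h1, h2, h3⟩ := hC
    obtain ⟨d', h4, h5, h6⟩ := trivial_coset (⊥ : Subgroup C) rfl dC h1 h2
    exact ⟨d', h4, h5, trivial_coset_fin _ dC h3 d' h6 _⟩

end Pool.Agent.Lib.MP_1df68a_gt
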