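import Pool.Agent.Lib.MP_1df68a_gt.Sides

set_option autoImplicit false

/-! Covers of an amalgam with few colours. -/

namespace Pool.Agent.Lib.MP_1df68a_gt

open Relation

namespace Amalg

variable {G : Type*} [Group G] (M : Amalg G) {w : G → ℕ}

lemma sep (hw : Adm M.letters w) {j : Bool} {g x y : G} (hx : g⁻¹ * x ∈ M.side j)
    (hy : g⁻¹ * y ∉ M.side j) :
    ∃ c, g⁻¹ * c ∈ M.C ∧ wd M.letters w x c + wd M.letters w c y ≤ wd M.letters w x y := by
  have hexit : ∀ x ∈ {x | g⁻¹ * x ∈ M.side j}, ∀ s ∈ M.letters,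
      x * s ∈ {x | g⁻¹ * x ∈ M.side j} ∨ x * s ∈ {x | g⁻¹ * x ∈ M.C} := by
    intro x hx s hs
    obtain ⟨i, hi⟩ := hs
    have := M.a4 j _ hx i s hi
    simpa [mul_assoc] using this
  obtain ⟨c, hc, h⟩ := hw.exit hexit (x := x) (y := y) hx hy
  exact ⟨c, hc, h⟩

/-- Neighbourhood of the vertex group `H i`. -/
def near (w : G → ℕ) (t : ℕ) (i : Bool) : Set G := Nbd (wd M.letters w) t {y | y ∈ M.H i}

lemma H_near (hw : Adm M.letters w) (t : ℕ) {i : Bool} {x : G} (hx : x ∈ M.H i) :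
    x ∈ M.near w t i := ⟨x, hx, by simp [hw.isPM.self]⟩

lemma sep_vertex (hw : Adm M.letters w) {i : Bool} {x y : G} (hx : x ∉ M.H i)
    (hne : M.br i x ≠ M.br i y) : x ∈ M.near w (wd M.letters w x y) i := by
  obtain ⟨h1, h2, h3⟩ := M.br_spec hx
  by_cases hy : (M.br i x)⁻¹ * y ∈ M.side (!i)
  · exact absurd (M.br_eq' hx hy).symm hne
  · obtain ⟨c, hc, hle⟩ := M.sep hw h2 hy
    refine ⟨c, ?_, by omega⟩
    have := mul_mem h1 (M.hC i hc)
    rwa [mul_inv_cancel_left] at this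

theorem tower (hw : Adm M.letters w) (m n ρ σ : ℕ) (R' : ℕ → ℕ) (hR' : ∀ k < n, R' k ≤ σ)
    (hC : ∀ r t, ∃ D, ∃ S : ℕ → Set G,
      (∀ x ∈ Nbd (wd M.letters w) t {x | x ∈ M.C}, ∃ k < m, x ∈ S k) ∧
      ∀ k < m, Bd (wd M.letters w) (S k) r D)
    (P : Bool → ℕ → Set G) (DP : ℕ)
    (hP : ∀ i, ∀ x ∈ M.near w ρ i, ∃ k < n, x ∈ P i k)
    (hPB : ∀ i, ∀ k < n, Bd (wd M.letters w) (P i k) (R' k) DP) :
    ∀ l, ∃ D, ∃ A B : Bool → ℕ → Set G,
      (∀ i, ∀ y ∈ M.Y l i, (∃ k < m, y ∈ A i k) ∨ (∃ k < n, y ∈ B i k)) ∧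
      (∀ i, ∀ k < m, Bd (wd M.letters w) (A i k) ρ D) ∧
      (∀ i, ∀ k < n, Bd (wd M.letters w) (B i k) (R' k) D) := by
  intro l
  have hd := hw.isPM
  induction l with
  | zero =>
    refine ⟨DP, fun _ _ => ∅, P, ?_, ?_, hPB⟩
    · intro i y hy
      exact Or.inr (hP i y (M.H_near hw ρ hy))
    · intro i k _
      exact bd_empty hd _ _
  | succ l ih =>
    obtain ⟨D, A, B, hcov, hA, hB⟩ := ih
    obtain ⟨DS, S, hS, hSB⟩ := hC (D + 2 * ρ) (ρ + σ)
    have hnear_mono : ∀ i, M.near w ρ i ⊆ M.near w (ρ + σ) i := by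
      rintro i x ⟨y, hy, hxy⟩
      exact ⟨y, hy, by omega⟩
    refine ⟨2 * D + 2 * ρ + DS + DP,
      fun i k => {y | y ∉ M.near w ρ i ∧ (M.br i y)⁻¹ * y ∈ A (!i) k ∪ S k},
      fun i k => {y | (y ∈ M.near w ρ i ∧ y ∈ P i k) ∨
        (y ∉ M.near w (ρ + σ) i ∧ (M.br i y)⁻¹ * y ∈ B (!i) k)}, ?_, ?_, ?_⟩
    · intro i y hy
      by_cases hyρ : y ∈ M.near w ρ i
      · obtain ⟨k, hk, hyk⟩ := hP i y hyρ
        exact Or.inr ⟨k, hk, Or.inl ⟨hyρ, hyk⟩⟩
      have hyH : y ∉ M.H i := fun h => hyρ (M.H_near hw ρ h)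
      obtain ⟨h1, h2, h3⟩ := M.br_spec hyH
      by_cases hyσ : y ∈ M.near w (ρ + σ) i
      · left
        obtain ⟨h', hh', hyh'⟩ := hyσ
        have hnot : (M.br i y)⁻¹ * h' ∉ M.side (!i) := fun hh =>
          M.side_notMem hh (mul_mem (inv_mem h1) hh')
        obtain ⟨c, hc, hle⟩ := M.sep hw h2 hnot
        have : (M.br i y)⁻¹ * y ∈ Nbd (wd M.letters w) (ρ + σ) {x | x ∈ M.C} := by
          refine ⟨_, hc, ?_⟩
          rw [wd_inv]
          omega
        obtain ⟨k, hk, hyk⟩ := hS _ this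
        exact ⟨k, hk, hyρ, Or.inr hyk⟩
      · have hy' : (M.br i y)⁻¹ * y ∈ M.Y l (!i) := by
          rcases hy with h | h
          · exact absurd h hyH
          · exact h
        rcases hcov (!i) _ hy' with ⟨k, hk, hyk⟩ | ⟨k, hk, hyk⟩
        · exact Or.inl ⟨k, hk, hyρ, Or.inl hyk⟩
        · exact Or.inr ⟨k, hk, Or.inr ⟨hyσ, hyk⟩⟩
    · intro i k hk
      refine Bd.of_label (M.br i) ?_ ?_
      · rintro x ⟨hxρ, -⟩ y - hxy
        by_contra hne
        have hxH : x ∉ M.H i := fun h => hxρ (M.H_near hw ρ h)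
        obtain ⟨z, hz, hxz⟩ := M.sep_vertex hw hxH hne
        exact hxρ ⟨z, hz, by omega⟩
      · intro h
        have h1 : Bd (wd M.letters w) (A (!i) k ∪ S k) ρ (2 * D + 2 * ρ + DS) :=
          Bd.union hd (hA (!i) k hk) (hSB k hk) le_rfl
        refine (h1.translate wd_inv h).mono ?_ le_rfl (by omega)
        rintro x ⟨⟨-, hx⟩, hxh⟩
        have hxh' : M.br i x = h := hxh
        rw [hxh'] at hx
        exact hx
    · intro i k hk
      classical
      refine Bd.of_label (fun y => if y ∈ M.near w ρ i then none else some (M.br i y)) ?_ ?_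
      · intro x hx y hy hxy
        have hxyσ : wd M.letters w x y ≤ σ := hxy.trans (hR' k hk)
        have hfar : ∀ x y, wd M.letters w x y ≤ σ → x ∈ M.near w ρ i → y ∈ M.near w (ρ + σ) i := by
          rintro x y hxy ⟨z, hz, hxz⟩
          refine ⟨z, hz, ?_⟩
          have h1 := hd.tri y x z
          have h2 := hd.symm y x
          omega
        by_cases hxρ : x ∈ M.near w ρ i
        · have hyρ : y ∈ M.near w ρ i := by
            rcases hy with ⟨h, _⟩ | ⟨h, _⟩
            · exact h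
            · exact absurd (hfar x y hxyσ hxρ) h
          simp [hxρ, hyρ]
        · have hxσ : x ∉ M.near w (ρ + σ) i := by
            rcases hx with ⟨h, _⟩ | ⟨h, _⟩
            · exact absurd h hxρ
            · exact h
          have hyρ : y ∉ M.near w ρ i := by
            intro h
            exact hxσ (hfar y x (by rw [hd.symm]; exact hxyσ) h)
          simp only [hxρ, hyρ, if_false]
          congr 1
          by_contra hne
          have hxH : x ∉ M.H i := fun h => hxρ (M.H_near hw ρ h)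
          obtain ⟨z, hz, hxz⟩ := M.sep_vertex hw hxH hne
          exact hxσ ⟨z, hz, by omega⟩
      · intro o
        cases o with
        | none =>
          refine (hPB i k hk).mono ?_ le_rfl (by omega)
          rintro x ⟨hx, hxo⟩
          have hxρ : x ∈ M.near w ρ i := by
            by_contra h
            simp [h] at hxo
          rcases hx with ⟨_, h⟩ | ⟨h, _⟩
          · exact h
          · exact absurd (hnear_mono i hxρ) h
        | some h =>
          refine ((hB (!i) k hk).translate wd_inv h).mono ?_ le_rfl (by omega)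
          rintro x ⟨hx, hxo⟩
          have hxρ : x ∉ M.near w ρ i := by
            intro h
            simp [h] at hxo
          have hbr : M.br i x = h := by
            simpa [hxρ] using hxo
          rcases hx with ⟨h, _⟩ | ⟨_, h⟩
          · exact absurd h hxρ
          · rw [hbr] at h
            exact h

/-- The palette lemma: the number of colours does not depend on the depth `l`. -/
theorem palette (hw : Adm M.letters w) (m : ℕ)
    (hC : ∀ r t, ∃ D, ∃ S : ℕ → Set G,
      (∀ x ∈ Nbd (wd M.letters w) t {x | x ∈ M.C}, ∃ k < m, x ∈ S k) ∧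
      ∀ k < m, Bd (wd M.letters w) (S k) r D)
    (hH : ∀ i, ∀ R : ℕ → ℕ, ∃ n D, ∃ A : ℕ → Set G,
      (∀ x ∈ M.H i, ∃ k < n, x ∈ A k) ∧ ∀ k < n, Bd (wd M.letters w) (A k) (R k) D)
    (R : ℕ → ℕ) (hR : Monotone R) :
    ∃ N, ∀ l, ∃ D, ∃ E : Bool → ℕ → Set G,
      (∀ i, ∀ y ∈ M.Y l i, ∃ k < N, y ∈ E i k) ∧
      (∀ i, ∀ k < N, Bd (wd M.letters w) (E i k) (R k) D) := by
  have hd := hw.isPM
  choose n D A hA hAB using fun i => hH i (fun k => R (m + k) + 2 * R m)
  set n' := n false + n true with hn'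
  have hni : ∀ i, n i ≤ n' := by intro i; cases i <;> omega
  refine ⟨m + n', fun l => ?_⟩
  obtain ⟨D', A', B', hcov, hA', hB'⟩ := M.tower hw m n' (R m) (R (m + n')) (fun k => R (m + k))
    (fun k hk => hR (by omega)) hC
    (fun i k => if k < n i then Nbd (wd M.letters w) (R m) (A i k) else ∅)
    (D false + D true + 2 * R m)
    (by
      rintro i x ⟨y, hy, hxy⟩
      obtain ⟨k, hk, hyk⟩ := hA i y hy
      refine ⟨k, hk.trans_le (hni i), ?_⟩
      simp only [hk, if_true]
      exact ⟨y, hyk, hxy⟩)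
    (by
      intro i k _
      by_cases hk : k < n i
      · simp only [hk, if_true]
        exact ((hAB i k hk).thicken hd).mono subset_rfl le_rfl (by cases i <;> omega)
      · simp only [hk, if_false]
        exact bd_empty hd _ _) l
  refine ⟨D', fun i k => if k < m then A' i k else B' i (k - m), ?_, ?_⟩
  · intro i y hy
    rcases hcov i y hy with ⟨k, hk, hyk⟩ | ⟨k, hk, hyk⟩
    · exact ⟨k, by omega, by simpa [hk] using hyk⟩
    · refine ⟨m + k, by omega, ?_⟩
      have : ¬ (m + k < m) := by omega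
      simpa [this] using hyk
  · intro i k hk
    by_cases hkm : k < m
    · simp only [hkm, if_true]
      exact (hA' i k hkm).mono subset_rfl (hR (by omega)) le_rfl
    · simp only [hkm, if_false]
      have := hB' i (k - m) (by omega)
      have e : m + (k - m) = k := by omega
      simpa [e] using this

/-- Prefix of length `k` of `x`, rooted at the vertex `H i`. -/
noncomputable def pfx : ℕ → Bool → G → G
  | 0, _, _ => 1
  | k + 1, i, x => M.br i x * pfx k (!i) ((M.br i x)⁻¹ * x)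

/-- Type of the `k`-th vertex on a path starting with type `i`. -/
def ty : ℕ → Bool → Bool
  | 0, i => i
  | k + 1, i => ty k (!i)

lemma pfx_side (k : ℕ) : ∀ (i : Bool) (x : G), (∀ k' < k + 1, x ∉ M.Y k' i) → x ∈ M.side i →
    ∀ y, ((M.pfx (k + 1) i x)⁻¹ * y ∈ M.C ∨ (M.pfx (k + 1) i x)⁻¹ * y ∈ M.side (ty (k + 1) i)) →
      y ∈ M.side i := by
  induction k with
  | zero =>
    intro i x hk hx y hy
    have hxH : x ∉ M.H i := fun h => hk 0 (by omega) h
    obtain ⟨h1, h2, h3⟩ := M.br_spec hxH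
    have hbC : M.br i x ∉ M.C := by
      intro h
      have := M.side_smul h h2
      rw [mul_inv_cancel_left] at this
      exact M.a2' i x hx this
    have e : M.pfx (0 + 1) i x = M.br i x := by simp [pfx]
    rw [e] at hy
    have := M.a3 i _ h1 hbC ((M.br i x)⁻¹ * y) hy
    rwa [mul_inv_cancel_left] at this
  | succ k ih =>
    intro i x hk hx y hy
    have hxH : x ∉ M.H i := fun h => hk 0 (by omega) h
    obtain ⟨h1, h2, h3⟩ := M.br_spec hxH
    have hbC : M.br i x ∉ M.C := by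
      intro h
      have := M.side_smul h h2
      rw [mul_inv_cancel_left] at this
      exact M.a2' i x hx this
    have hk' : ∀ k' < k + 1, (M.br i x)⁻¹ * x ∉ M.Y k' (!i) := by
      intro k' hk' hc
      exact hk (k' + 1) (by omega) (Or.inr hc)
    have e : M.pfx (k + 1 + 1) i x = M.br i x * M.pfx (k + 1) (!i) ((M.br i x)⁻¹ * x) := rfl
    have e2 : (M.pfx (k + 1 + 1) i x)⁻¹ * y =
        (M.pfx (k + 1) (!i) ((M.br i x)⁻¹ * x))⁻¹ * ((M.br i x)⁻¹ * y) := by
      rw [e, mul_inv_rev, mul_assoc]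
    rw [e2] at hy
    have := ih (!i) _ hk' h2 ((M.br i x)⁻¹ * y) hy
    have := M.a3 i _ h1 hbC ((M.br i x)⁻¹ * y) (Or.inr this)
    rwa [mul_inv_cancel_left] at this

lemma pfx_Y (k : ℕ) : ∀ (l : ℕ) (i : Bool) (x : G), (∀ k' < k, x ∉ M.Y k' i) →
    x ∈ M.Y (k + l) i → (M.pfx k i x)⁻¹ * x ∈ M.Y l (ty k i) := by
  induction k with
  | zero => intro l i x _ hx; simpa [pfx, ty] using hx
  | succ k ih =>
    intro l i x hk hx
    have hxH : x ∉ M.H i := fun h => hk 0 (by omega) h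
    have e : k + 1 + l = k + l + 1 := by omega
    rw [e] at hx
    have hx' : (M.br i x)⁻¹ * x ∈ M.Y (k + l) (!i) := by
      rcases hx with h | h
      · exact absurd h hxH
      · exact h
    have hk' : ∀ k' < k, (M.br i x)⁻¹ * x ∉ M.Y k' (!i) := by
      intro k' hk' hc
      exact hk (k' + 1) (by omega) (Or.inr hc)
    have := ih l (!i) _ hk' hx'
    have e2 : (M.pfx (k + 1) i x)⁻¹ * x =
        (M.pfx k (!i) ((M.br i x)⁻¹ * x))⁻¹ * ((M.br i x)⁻¹ * x) := by
      show (M.br i x * M.pfx k (!i) ((M.br i x)⁻¹ * x))⁻¹ * x = _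
      rw [mul_inv_rev, mul_assoc]
    rw [e2]
    exact this

lemma pfx_self (k : ℕ) : ∀ (i : Bool) (x : G), (∀ k' < k + 1, x ∉ M.Y k' i) →
    (M.pfx (k + 1) i x)⁻¹ * x ∈ M.side (ty (k + 1) i) := by
  induction k with
  | zero =>
    intro i x hk
    have hxH : x ∉ M.H i := fun h => hk 0 (by omega) h
    obtain ⟨h1, h2, h3⟩ := M.br_spec hxH
    simpa [pfx, ty] using h2
  | succ k ih =>
    intro i x hk
    have hk' : ∀ k' < k + 1, (M.br i x)⁻¹ * x ∉ M.Y k' (!i) := by
      intro k' hk' hc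
      exact hk (k' + 1) (by omega) (Or.inr hc)
    have := ih (!i) _ hk'
    have e2 : (M.pfx (k + 1 + 1) i x)⁻¹ * x =
        (M.pfx (k + 1) (!i) ((M.br i x)⁻¹ * x))⁻¹ * ((M.br i x)⁻¹ * x) := by
      show (M.br i x * M.pfx (k + 1) (!i) ((M.br i x)⁻¹ * x))⁻¹ * x = _
      rw [mul_inv_rev, mul_assoc]
    rw [e2]
    exact this

lemma pfx_gate (k : ℕ) : ∀ (i : Bool) (x : G), (∀ k' < k + 1, x ∉ M.Y k' i) →
    ∀ c, (M.pfx (k + 1) i x)⁻¹ * c ∈ M.C → c ∈ M.Y k i := by
  induction k with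
  | zero =>
    intro i x hk c hc
    have hxH : x ∉ M.H i := fun h => hk 0 (by omega) h
    obtain ⟨h1, h2, h3⟩ := M.br_spec hxH
    have e : M.pfx (0 + 1) i x = M.br i x := by simp [pfx]
    rw [e] at hc
    have := mul_mem h1 (M.hC i hc)
    rw [mul_inv_cancel_left] at this
    exact this
  | succ k ih =>
    intro i x hk c hc
    have hxH : x ∉ M.H i := fun h => hk 0 (by omega) h
    obtain ⟨h1, h2, h3⟩ := M.br_spec hxH
    have hk' : ∀ k' < k + 1, (M.br i x)⁻¹ * x ∉ M.Y k' (!i) := by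
      intro k' hk' hc
      exact hk (k' + 1) (by omega) (Or.inr hc)
    have e2 : (M.pfx (k + 1 + 1) i x)⁻¹ * c =
        (M.pfx (k + 1) (!i) ((M.br i x)⁻¹ * x))⁻¹ * ((M.br i x)⁻¹ * c) := by
      show (M.br i x * M.pfx (k + 1) (!i) ((M.br i x)⁻¹ * x))⁻¹ * c = _
      rw [mul_inv_rev, mul_assoc]
    rw [e2] at hc
    have hc1 := ih (!i) _ hk' _ hc
    have hc2 := M.pfx_side k (!i) _ hk' h2 _ (Or.inl hc)
    right
    rw [M.br_eq' hxH hc2]
    exact hc1

lemma pfx_congr (k : ℕ) : ∀ (i : Bool) (x : G), (∀ k' < k + 1, x ∉ M.Y k' i) →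
    ∀ y, (M.pfx (k + 1) i x)⁻¹ * y ∈ M.side (ty (k + 1) i) →
      M.pfx (k + 1) i y = M.pfx (k + 1) i x := by
  induction k with
  | zero =>
    intro i x hk y hy
    have hxH : x ∉ M.H i := fun h => hk 0 (by omega) h
    have e : ∀ z, M.pfx (0 + 1) i z = M.br i z := by intro z; simp [pfx]
    rw [e] at hy
    rw [e, e]
    exact M.br_eq' hxH hy
  | succ k ih =>
    intro i x hk y hy
    have hxH : x ∉ M.H i := fun h => hk 0 (by omega) h
    obtain ⟨h1, h2, h3⟩ := M.br_spec hxH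
    have hk' : ∀ k' < k + 1, (M.br i x)⁻¹ * x ∉ M.Y k' (!i) := by
      intro k' hk' hc
      exact hk (k' + 1) (by omega) (Or.inr hc)
    have e2 : (M.pfx (k + 1 + 1) i x)⁻¹ * y =
        (M.pfx (k + 1) (!i) ((M.br i x)⁻¹ * x))⁻¹ * ((M.br i x)⁻¹ * y) := by
      show (M.br i x * M.pfx (k + 1) (!i) ((M.br i x)⁻¹ * x))⁻¹ * y = _
      rw [mul_inv_rev, mul_assoc]
    rw [e2] at hy
    have hy1 := ih (!i) _ hk' _ hy
    have hy2 := M.pfx_side k (!i) _ hk' h2 _ (Or.inr hy)
    have hb := M.br_eq' hxH hy2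
    show M.br i y * M.pfx (k + 1) (!i) ((M.br i y)⁻¹ * y) =
      M.br i x * M.pfx (k + 1) (!i) ((M.br i x)⁻¹ * x)
    rw [hb, hy1]

/-- Depth with respect to the vertex `H false`. -/
noncomputable def depth (x : G) : ℕ := by
  classical
  exact Nat.find (M.exists_Y false x)

lemma depth_spec (x : G) : x ∈ M.Y (M.depth x) false := by
  classical
  exact Nat.find_spec (M.exists_Y false x)

lemma depth_le {x : G} {l : ℕ} (h : x ∈ M.Y l false) : M.depth x ≤ l := by
  classical
  exact Nat.find_min' (M.exists_Y false x) h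

lemma depth_lipschitz (hw : Adm M.letters w) (x y : G) :
    M.depth y ≤ M.depth x + wd M.letters w x y := by
  refine hw.lipschitz ?_ x y
  rintro x s ⟨i, hi⟩
  exact M.depth_le (M.Y_step _ _ _ (M.depth_spec x) i s hi)

theorem main_cover_mono (hw : Adm M.letters w) (m : ℕ)
    (hC : ∀ r t, ∃ D, ∃ S : ℕ → Set G,
      (∀ x ∈ Nbd (wd M.letters w) t {x | x ∈ M.C}, ∃ k < m, x ∈ S k) ∧
      ∀ k < m, Bd (wd M.letters w) (S k) r D)
    (hH : ∀ i, ∀ R : ℕ → ℕ, ∃ n D, ∃ A : ℕ → Set G,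
      (∀ x ∈ M.H i, ∃ k < n, x ∈ A k) ∧ ∀ k < n, Bd (wd M.letters w) (A k) (R k) D)
    (R : ℕ → ℕ) (hR : Monotone R) :
    ∃ n D, ∃ A : ℕ → Set G,
      (∀ x, ∃ k < n, x ∈ A k) ∧ ∀ k < n, Bd (wd M.letters w) (A k) (R k) D := by
  have hd := hw.isPM
  obtain ⟨N₁, h₁⟩ := M.palette hw m hC hH R hR
  obtain ⟨N₂, h₂⟩ := M.palette hw m hC hH (fun k => R (N₁ + k)) (fun a b hab => hR (by omega))
  set L := R (N₁ + N₂) + 1 with hL
  have hLpos : 0 < L := by omega
  obtain ⟨D₁, E₁, hE₁, hB₁⟩ := h₁ (2 * L)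
  obtain ⟨D₂, E₂, hE₂, hB₂⟩ := h₂ (2 * L)
  let b : G → ℕ := fun x => M.depth x / L
  let mm : ℕ → ℕ := fun b => (b - 1) * L
  let κ : G → G := fun x => M.pfx (mm (b x)) false x
  have hb1 : ∀ x, b x * L ≤ M.depth x := fun x => Nat.div_mul_le_self _ _
  have hb2 : ∀ x, M.depth x < (b x + 1) * L := fun x => by
    have := Nat.lt_mul_div_succ (M.depth x) hLpos
    rw [mul_comm] at this
    exact this
  have hmm : ∀ x, mm (b x) ≤ M.depth x := fun x =>
    (Nat.mul_le_mul_right L (Nat.sub_le (b x) 1)).trans (hb1 x)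
  have hshallow : ∀ x, ∀ k' < mm (b x), x ∉ M.Y k' false := by
    intro x k' hk' hc
    have := M.depth_le hc
    have := hmm x
    omega
  have hκY : ∀ x, (κ x)⁻¹ * x ∈ M.Y (2 * L) (ty (mm (b x)) false) := by
    intro x
    apply M.pfx_Y (mm (b x)) (2 * L) false x (hshallow x)
    refine M.Y_mono' ?_ false (M.depth_spec x)
    have h1 := hb2 x
    rcases Nat.eq_zero_or_pos (b x) with h0 | h0
    · rw [h0] at h1
      simp only [zero_add, one_mul] at h1
      omega
    · have : (b x + 1) * L = mm (b x) + 2 * L := by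
        show (b x + 1) * L = (b x - 1) * L + 2 * L
        rw [← add_mul]
        congr 1
        omega
      omega
  have hlabel : ∀ x y, b x % 2 = b y % 2 → wd M.letters w x y < L → (b x, κ x) = (b y, κ y) := by
    intro x y hpar hxy
    have hl1 := M.depth_lipschitz hw x y
    have hl2 := M.depth_lipschitz hw y x
    rw [hd.symm y x] at hl2
    have hbb : b x = b y := by
      have h1 := hb1 x
      have h2 := hb2 x
      have h3 := hb1 y
      have h4 := hb2 y
      have h5 : b x * L < (b y + 2) * L := by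
        have : (b y + 2) * L = (b y + 1) * L + L := by ring
        omega
      have h6 : b y * L < (b x + 2) * L := by
        have : (b x + 2) * L = (b x + 1) * L + L := by ring
        omega
      have h7 := Nat.lt_of_mul_lt_mul_right h5
      have h8 := Nat.lt_of_mul_lt_mul_right h6
      omega
    have hκ : κ x = κ y := by
      show M.pfx (mm (b x)) false x = M.pfx (mm (b y)) false y
      rw [← hbb]
      rcases Nat.eq_zero_or_pos (mm (b x)) with h0 | h0
      · rw [h0]; rfl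
      · obtain ⟨k, hk⟩ := Nat.exists_eq_succ_of_ne_zero h0.ne'
        have hsh := hshallow x
        have hk' : mm (b x) = k + 1 := hk
        rw [hk'] at hsh ⊢
        by_cases hy : (M.pfx (k + 1) false x)⁻¹ * y ∈ M.side (ty (k + 1) false)
        · exact (M.pfx_congr k false x hsh y hy).symm
        · exfalso
          obtain ⟨c, hc, hle⟩ := M.sep hw (M.pfx_self k false x hsh) hy
          have hcY := M.depth_le (M.pfx_gate k false x hsh c hc)
          have hl3 := M.depth_lipschitz hw c x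
          rw [hd.symm c x] at hl3
          have hbx := hb1 x
          have hbpos : 2 ≤ b x := by
            by_contra hlt
            have : b x - 1 = 0 := by omega
            have : mm (b x) = 0 := by
              show (b x - 1) * L = 0
              rw [this, zero_mul]
            omega
          have : b x * L = mm (b x) + L := by
            show b x * L = (b x - 1) * L + L
            have : b x = (b x - 1) + 1 := by omega
            conv_lhs => rw [this]
            ring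
          omega
    rw [hbb, hκ]
  refine ⟨N₁ + N₂, D₁ + D₂, fun k => if k < N₁ then
      {x | b x % 2 = 0 ∧ (κ x)⁻¹ * x ∈ E₁ (ty (mm (b x)) false) k}
      else {x | b x % 2 = 1 ∧ (κ x)⁻¹ * x ∈ E₂ (ty (mm (b x)) false) (k - N₁)}, ?_, ?_⟩
  · intro x
    rcases Nat.mod_two_eq_zero_or_one (b x) with h | h
    · obtain ⟨k, hk, hx⟩ := hE₁ _ _ (hκY x)
      exact ⟨k, by omega, by simp only [hk, if_true]; exact ⟨h, hx⟩⟩
    · obtain ⟨k, hk, hx⟩ := hE₂ _ _ (hκY x)
      refine ⟨N₁ + k, by omega, ?_⟩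
      have : ¬ (N₁ + k < N₁) := by omega
      simp only [this, if_false]
      refine ⟨h, ?_⟩
      simpa using hx
  · intro k hk
    have hRk : R k ≤ R (N₁ + N₂) := hR hk.le
    by_cases hk1 : k < N₁
    · simp only [hk1, if_true]
      refine Bd.of_label (fun x => (b x, κ x)) ?_ ?_
      · rintro x ⟨hx, -⟩ y ⟨hy, -⟩ hxy
        exact hlabel x y (by omega) (by omega)
      · rintro ⟨b0, p⟩
        refine ((hB₁ (ty (mm b0) false) k hk1).translate wd_inv p).mono ?_ le_rfl (by omega)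
        rintro x ⟨⟨-, hx⟩, hxl⟩
        have h1 : b x = b0 := congrArg Prod.fst hxl
        have h2 : κ x = p := congrArg Prod.snd hxl
        rw [h1, h2] at hx
        exact hx
    · simp only [hk1, if_false]
      refine Bd.of_label (fun x => (b x, κ x)) ?_ ?_
      · rintro x ⟨hx, -⟩ y ⟨hy, -⟩ hxy
        exact hlabel x y (by omega) (by omega)
      · rintro ⟨b0, p⟩
        have hB := hB₂ (ty (mm b0) false) (k - N₁) (by omega)
        have e : N₁ + (k - N₁) = k := by omega
        simp only [e] at hB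
        refine (hB.translate wd_inv p).mono ?_ le_rfl (by omega)
        rintro x ⟨⟨-, hx⟩, hxl⟩
        have h1 : b x = b0 := congrArg Prod.fst hxl
        have h2 : κ x = p := congrArg Prod.snd hxl
        rw [h1, h2] at hx
        exact hx

theorem main_cover (hw : Adm M.letters w) (m : ℕ)
    (hC : ∀ r, ∃ D, ∃ S : ℕ → Set G,
      (∀ x ∈ M.C, ∃ k < m, x ∈ S k) ∧ ∀ k < m, Bd (wd M.letters w) (S k) r D)
    (hH : ∀ i, ∀ R : ℕ → ℕ, ∃ n D, ∃ A : ℕ → Set G,
      (∀ x ∈ M.H i, ∃ k < n, x ∈ A k) ∧ ∀ k < n, Bd (wd M.letters w) (A k) (R k) D)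
    (R : ℕ → ℕ) :
    ∃ n D, ∃ A : ℕ → Set G,
      (∀ x, ∃ k < n, x ∈ A k) ∧ ∀ k < n, Bd (wd M.letters w) (A k) (R k) D := by
  have hC' : ∀ r t, ∃ D, ∃ S : ℕ → Set G,
      (∀ x ∈ Nbd (wd M.letters w) t {x | x ∈ M.C}, ∃ k < m, x ∈ S k) ∧
      ∀ k < m, Bd (wd M.letters w) (S k) r D := by
    intro r t
    obtain ⟨D, S, hS, hSB⟩ := hC (r + 2 * t)
    refine ⟨D + 2 * t, fun k => Nbd (wd M.letters w) t (S k), ?_, ?_⟩
    · rintro x ⟨y, hy, hxy⟩
      obtain ⟨k, hk, hyk⟩ := hS y hy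
      exact ⟨k, hk, y, hyk, hxy⟩
    · intro k hk
      exact (hSB k hk).thicken hw.isPM
  obtain ⟨n, D, A, h1, h2⟩ := M.main_cover_mono hw m hC' hH
    (fun k => ∑ j ∈ Finset.range (k + 1), R j) (by
      intro a b hab
      exact Finset.sum_le_sum_of_subset (Finset.range_mono (by omega)))
  refine ⟨n, D, A, h1, fun k hk => (h2 k hk).mono subset_rfl ?_ le_rfl⟩
  exact Finset.single_le_sum (f := R) (fun _ _ => Nat.zero_le _) (Finset.self_mem_range_succ k)

end Amalg

end Pool.Agent.Lib.MP_1df68a_gt
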