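import Pool.Agent.Lib.MP_1df68a_gt.Length0
import Pool.Agent.Lib.MP_1df68a_gt.Tower

set_option autoImplicit false

/-! Covers of the fibres of a homomorphism defined on an amalgam, for lengths whose weights may
vanish on part of the common subgroup (relative version of `Tower`). -/

namespace Pool.Agent.Lib.MP_1df68a_gt

open Relation

namespace Amalg

variable {G : Type*} [Group G] (M : Amalg G) {w : G → ℕ} {Y : Type*} (α : G →* Equiv.Perm Y)
  (y₀ : Y)

lemma sep0 (hw : Adm0 M.letters w) {j : Bool} {g x y : G} (hx : g⁻¹ * x ∈ M.side j)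
    (hy : g⁻¹ * y ∉ M.side j) :
    ∃ c, g⁻¹ * c ∈ M.C ∧ wd M.letters w x c + wd M.letters w c y ≤ wd M.letters w x y := by
  have hexit : ∀ x ∈ {x | g⁻¹ * x ∈ M.side j}, ∀ s ∈ M.letters,
      x * s ∈ {x | g⁻¹ * x ∈ M.side j} ∨ x * s ∈ {x | g⁻¹ * x ∈ M.C} := by
    intro x hx s hs
    obtain ⟨i, hi⟩ := hs
    have := M.a4 j _ hx i s hi
    simpa [mul_assoc] using this
  obtain ⟨c, hc, h⟩ := hw.exit hexit (x := x) (y := y) hx hy
  exact ⟨c, hc, h⟩

lemma H_near0 (hw : Adm0 M.letters w) (t : ℕ) {i : Bool} {x : G} (hx : x ∈ M.H i) :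
    x ∈ M.near w t i := ⟨x, hx, by simp [hw.isPM.self]⟩

lemma sep_vertex0 (hw : Adm0 M.letters w) {i : Bool} {x y : G} (hx : x ∉ M.H i)
    (hne : M.br i x ≠ M.br i y) : x ∈ M.near w (wd M.letters w x y) i := by
  obtain ⟨h1, h2, h3⟩ := M.br_spec hx
  by_cases hy : (M.br i x)⁻¹ * y ∈ M.side (!i)
  · exact absurd (M.br_eq' hx hy).symm hne
  · obtain ⟨c, hc, hle⟩ := M.sep0 hw h2 hy
    refine ⟨c, ?_, by omega⟩
    have := mul_mem h1 (M.hC i hc)
    rwa [mul_inv_cancel_left] at this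

theorem towerR (hw : Adm0 M.letters w) (m n ρ σ : ℕ) (R' : ℕ → ℕ) (hR' : ∀ k < n, R' k ≤ σ)
    (hC : ∀ r t, ∃ D, ∀ q : Y, ∃ S : ℕ → Set G,
      (∀ x ∈ Nbd (wd M.letters w) t {x | x ∈ M.C}, α x y₀ = q → ∃ k < m, x ∈ S k) ∧
      ∀ k < m, Bd (wd M.letters w) (S k) r D)
    (P : Bool → ℕ → Set G) (DP : ℕ)
    (hP : ∀ i, ∀ x ∈ M.near w ρ i, ∃ k < n, x ∈ P i k)
    (hPB : ∀ i, ∀ k < n, Bd (wd M.letters w) (P i k) (R' k) DP) :
    ∀ l, ∃ D, ∀ q : Y, ∃ A B : Bool → ℕ → Set G,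
      (∀ i, ∀ y ∈ M.Y l i, α y y₀ = q → (∃ k < m, y ∈ A i k) ∨ (∃ k < n, y ∈ B i k)) ∧
      (∀ i, ∀ k < m, Bd (wd M.letters w) (A i k) ρ D) ∧
      (∀ i, ∀ k < n, Bd (wd M.letters w) (B i k) (R' k) D) := by
  intro l
  have hd := hw.isPM
  induction l with
  | zero =>
    refine ⟨DP, fun q => ⟨fun _ _ => ∅, P, ?_, ?_, hPB⟩⟩
    · intro i y hy _
      exact Or.inr (hP i y (M.H_near0 hw ρ hy))
    · intro i k _
      exact bd_empty hd _ _
  | succ l ih =>
    obtain ⟨D, hD⟩ := ih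
    choose A B hcov hA hB using hD
    obtain ⟨DS, hDS⟩ := hC (D + 2 * ρ) (ρ + σ)
    choose S hS hSB using hDS
    have hnear_mono : ∀ i, M.near w ρ i ⊆ M.near w (ρ + σ) i := by
      rintro i x ⟨y, hy, hxy⟩
      exact ⟨y, hy, by omega⟩
    refine ⟨2 * D + 2 * ρ + DS + DP, fun q =>
      ⟨fun i k => {y | y ∉ M.near w ρ i ∧
        (M.br i y)⁻¹ * y ∈ A ((α (M.br i y))⁻¹ q) (!i) k ∪ S ((α (M.br i y))⁻¹ q) k},
      fun i k => {y | (y ∈ M.near w ρ i ∧ y ∈ P i k) ∨
        (y ∉ M.near w (ρ + σ) i ∧ (M.br i y)⁻¹ * y ∈ B ((α (M.br i y))⁻¹ q) (!i) k)},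
      ?_, ?_, ?_⟩⟩
    · intro i y hy hyq
      by_cases hyρ : y ∈ M.near w ρ i
      · obtain ⟨k, hk, hyk⟩ := hP i y hyρ
        exact Or.inr ⟨k, hk, Or.inl ⟨hyρ, hyk⟩⟩
      have hyH : y ∉ M.H i := fun h => hyρ (M.H_near0 hw ρ h)
      obtain ⟨h1, h2, h3⟩ := M.br_spec hyH
      have hπ : α ((M.br i y)⁻¹ * y) y₀ = (α (M.br i y))⁻¹ q := by
        rw [map_mul, map_inv, Equiv.Perm.mul_apply, hyq]
      by_cases hyσ : y ∈ M.near w (ρ + σ) i
      · left
        obtain ⟨h', hh', hyh'⟩ := hyσ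
        have hnot : (M.br i y)⁻¹ * h' ∉ M.side (!i) := fun hh =>
          M.side_notMem hh (mul_mem (inv_mem h1) hh')
        obtain ⟨c, hc, hle⟩ := M.sep0 hw h2 hnot
        have : (M.br i y)⁻¹ * y ∈ Nbd (wd M.letters w) (ρ + σ) {x | x ∈ M.C} := by
          refine ⟨_, hc, ?_⟩
          rw [wd_inv]
          omega
        obtain ⟨k, hk, hyk⟩ := hS _ _ this hπ
        exact ⟨k, hk, hyρ, Or.inr hyk⟩
      · have hy' : (M.br i y)⁻¹ * y ∈ M.Y l (!i) := by
          rcases hy with h | h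
          · exact absurd h hyH
          · exact h
        rcases hcov _ (!i) _ hy' hπ with ⟨k, hk, hyk⟩ | ⟨k, hk, hyk⟩
        · exact Or.inl ⟨k, hk, hyρ, Or.inl hyk⟩
        · exact Or.inr ⟨k, hk, Or.inr ⟨hyσ, hyk⟩⟩
    · intro i k hk
      refine Bd.of_label (M.br i) ?_ ?_
      · rintro x ⟨hxρ, -⟩ y - hxy
        by_contra hne
        have hxH : x ∉ M.H i := fun h => hxρ (M.H_near0 hw ρ h)
        obtain ⟨z, hz, hxz⟩ := M.sep_vertex0 hw hxH hne
        exact hxρ ⟨z, hz, by omega⟩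
      · intro h
        have h1 : Bd (wd M.letters w) (A ((α h)⁻¹ q) (!i) k ∪ S ((α h)⁻¹ q) k) ρ
            (2 * D + 2 * ρ + DS) :=
          Bd.union hd (hA _ (!i) k hk) (hSB _ k hk) le_rfl
        refine (h1.translate wd_inv h).mono ?_ le_rfl (by omega)
        rintro x ⟨⟨-, hx⟩, hxh⟩
        have hxh' : M.br i x = h := hxh
        rw [hxh'] at hx
        exact hx
    · intro i k hk
      classical
      refine Bd.of_label (fun y => if y ∈ M.near w ρ i then none else some (M.br i y)) ?_ ?_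
      · intro x hx y hy hxy
        have hxyσ : wd M.letters w x y ≤ σ := hxy.trans (hR' k hk)
        have hfar : ∀ x y, wd M.letters w x y ≤ σ → x ∈ M.near w ρ i → y ∈ M.near w (ρ + σ) i := by
          rintro x y hxy ⟨z, hz, hxz⟩
          refine ⟨z, hz, ?_⟩
          have h1 := hd.tri y x z
          have h2 := hd.symm y x
          omega
        by_cases hxρ : x ∈ M.near w ρ i
        · have hyρ : y ∈ M.near w ρ i := by
            rcases hy with ⟨h, _⟩ | ⟨h, _⟩
            · exact h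
            · exact absurd (hfar x y hxyσ hxρ) h
          simp [hxρ, hyρ]
        · have hxσ : x ∉ M.near w (ρ + σ) i := by
            rcases hx with ⟨h, _⟩ | ⟨h, _⟩
            · exact absurd h hxρ
            · exact h
          have hyρ : y ∉ M.near w ρ i := by
            intro h
            exact hxσ (hfar y x (by rw [hd.symm]; exact hxyσ) h)
          simp only [hxρ, hyρ, if_false]
          congr 1
          by_contra hne
          have hxH : x ∉ M.H i := fun h => hxρ (M.H_near0 hw ρ h)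
          obtain ⟨z, hz, hxz⟩ := M.sep_vertex0 hw hxH hne
          exact hxσ ⟨z, hz, by omega⟩
      · intro o
        cases o with
        | none =>
          refine (hPB i k hk).mono ?_ le_rfl (by omega)
          rintro x ⟨hx, hxo⟩
          have hxρ : x ∈ M.near w ρ i := by
            by_contra h
            simp [h] at hxo
          rcases hx with ⟨_, h⟩ | ⟨h, _⟩
          · exact h
          · exact absurd (hnear_mono i hxρ) h
        | some h =>
          refine ((hB ((α h)⁻¹ q) (!i) k hk).translate wd_inv h).mono ?_ le_rfl (by omega)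
          rintro x ⟨hx, hxo⟩
          have hxρ : x ∉ M.near w ρ i := by
            intro h
            simp [h] at hxo
          have hbr : M.br i x = h := by
            simpa [hxρ] using hxo
          rcases hx with ⟨h, _⟩ | ⟨_, h⟩
          · exact absurd h hxρ
          · rw [hbr] at h
            exact h

/-- The palette lemma: the number of colours does not depend on the depth `l`. -/
theorem paletteR (hw : Adm0 M.letters w) (m : ℕ)
    (hC : ∀ r t, ∃ D, ∀ q : Y, ∃ S : ℕ → Set G,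
      (∀ x ∈ Nbd (wd M.letters w) t {x | x ∈ M.C}, α x y₀ = q → ∃ k < m, x ∈ S k) ∧
      ∀ k < m, Bd (wd M.letters w) (S k) r D)
    (hH : ∀ i, ∀ R : ℕ → ℕ, ∃ n D, ∃ A : ℕ → Set G,
      (∀ x ∈ M.H i, ∃ k < n, x ∈ A k) ∧ ∀ k < n, Bd (wd M.letters w) (A k) (R k) D)
    (R : ℕ → ℕ) (hR : Monotone R) :
    ∃ N, ∀ l, ∃ D, ∀ q : Y, ∃ E : Bool → ℕ → Set G,
      (∀ i, ∀ y ∈ M.Y l i, α y y₀ = q → ∃ k < N, y ∈ E i k) ∧
      (∀ i, ∀ k < N, Bd (wd M.letters w) (E i k) (R k) D) := by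
  have hd := hw.isPM
  choose n D A hA hAB using fun i => hH i (fun k => R (m + k) + 2 * R m)
  set n' := n false + n true with hn'
  have hni : ∀ i, n i ≤ n' := by intro i; cases i <;> omega
  refine ⟨m + n', fun l => ?_⟩
  obtain ⟨D', hD'⟩ := M.towerR α y₀ hw m n' (R m) (R (m + n')) (fun k => R (m + k))
    (fun k hk => hR (by omega)) hC
    (fun i k => if k < n i then Nbd (wd M.letters w) (R m) (A i k) else ∅)
    (D false + D true + 2 * R m)
    (by
      rintro i x ⟨y, hy, hxy⟩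
      obtain ⟨k, hk, hyk⟩ := hA i y hy
      refine ⟨k, hk.trans_le (hni i), ?_⟩
      simp only [hk, if_true]
      exact ⟨y, hyk, hxy⟩)
    (by
      intro i k _
      by_cases hk : k < n i
      · simp only [hk, if_true]
        exact ((hAB i k hk).thicken hd).mono subset_rfl le_rfl (by cases i <;> omega)
      · simp only [hk, if_false]
        exact bd_empty hd _ _) l
  choose A' B' hcov hA' hB' using hD'
  refine ⟨D', fun q => ⟨fun i k => if k < m then A' q i k else B' q i (k - m), ?_, ?_⟩⟩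
  · intro i y hy hyq
    rcases hcov q i y hy hyq with ⟨k, hk, hyk⟩ | ⟨k, hk, hyk⟩
    · exact ⟨k, by omega, by simpa [hk] using hyk⟩
    · refine ⟨m + k, by omega, ?_⟩
      have : ¬ (m + k < m) := by omega
      simpa [this] using hyk
  · intro i k hk
    by_cases hkm : k < m
    · simp only [hkm, if_true]
      exact (hA' q i k hkm).mono subset_rfl (hR (by omega)) le_rfl
    · simp only [hkm, if_false]
      have := hB' q i (k - m) (by omega)
      have e : m + (k - m) = k := by omega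
      simpa [e] using this

lemma depth_lipschitz0 (hw : Adm0 M.letters w) (hpos : ∀ s, s ∉ M.C → 1 ≤ w s) (x y : G) :
    M.depth y ≤ M.depth x + wd M.letters w x y := by
  refine hw.lipschitz ?_ x y
  rintro x s ⟨i, hi⟩
  by_cases hs : s ∈ M.C
  · exact (M.depth_le (M.Y_C _ _ _ (M.depth_spec x) s hs)).trans (Nat.le_add_right _ _)
  · exact (M.depth_le (M.Y_step _ _ _ (M.depth_spec x) i s hi)).trans
      (Nat.add_le_add_left (hpos s hs) _)

theorem main_cover_monoR (hw : Adm0 M.letters w) (hpos : ∀ s, s ∉ M.C → 1 ≤ w s) (m : ℕ)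
    (hC : ∀ r t, ∃ D, ∀ q : Y, ∃ S : ℕ → Set G,
      (∀ x ∈ Nbd (wd M.letters w) t {x | x ∈ M.C}, α x y₀ = q → ∃ k < m, x ∈ S k) ∧
      ∀ k < m, Bd (wd M.letters w) (S k) r D)
    (hH : ∀ i, ∀ R : ℕ → ℕ, ∃ n D, ∃ A : ℕ → Set G,
      (∀ x ∈ M.H i, ∃ k < n, x ∈ A k) ∧ ∀ k < n, Bd (wd M.letters w) (A k) (R k) D)
    (R : ℕ → ℕ) (hR : Monotone R) :
    ∃ n D, ∀ q : Y, ∃ A : ℕ → Set G,
      (∀ x, α x y₀ = q → ∃ k < n, x ∈ A k) ∧ ∀ k < n, Bd (wd M.letters w) (A k) (R k) D := by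
  have hd := hw.isPM
  obtain ⟨N₁, h₁⟩ := M.paletteR α y₀ hw m hC hH R hR
  obtain ⟨N₂, h₂⟩ := M.paletteR α y₀ hw m hC hH (fun k => R (N₁ + k)) (fun a b hab => hR (by omega))
  set L' := R (N₁ + N₂) + 1 with hL
  have hLpos : 0 < L' := by omega
  obtain ⟨D₁, h₁⟩ := h₁ (2 * L')
  choose E₁ hE₁ hB₁ using h₁
  obtain ⟨D₂, h₂⟩ := h₂ (2 * L')
  choose E₂ hE₂ hB₂ using h₂
  let b : G → ℕ := fun x => M.depth x / L'
  let mm : ℕ → ℕ := fun b => (b - 1) * L'
  let κ : G → G := fun x => pfx M (mm (b x)) false x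
  have hb1 : ∀ x, b x * L' ≤ M.depth x := fun x => Nat.div_mul_le_self _ _
  have hb2 : ∀ x, M.depth x < (b x + 1) * L' := fun x => by
    have := Nat.lt_mul_div_succ (M.depth x) hLpos
    rw [mul_comm] at this
    exact this
  have hmm : ∀ x, mm (b x) ≤ M.depth x := fun x =>
    (Nat.mul_le_mul_right L' (Nat.sub_le (b x) 1)).trans (hb1 x)
  have hshallow : ∀ x, ∀ k' < mm (b x), x ∉ M.Y k' false := by
    intro x k' hk' hc
    have := M.depth_le hc
    have := hmm x
    omega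
  have hκY : ∀ x, (κ x)⁻¹ * x ∈ M.Y (2 * L') (ty (mm (b x)) false) := by
    intro x
    apply M.pfx_Y (mm (b x)) (2 * L') false x (hshallow x)
    refine M.Y_mono' ?_ false (M.depth_spec x)
    have h1 := hb2 x
    rcases Nat.eq_zero_or_pos (b x) with h0 | h0
    · rw [h0] at h1
      simp only [zero_add, one_mul] at h1
      omega
    · have : (b x + 1) * L' = mm (b x) + 2 * L' := by
        show (b x + 1) * L' = (b x - 1) * L' + 2 * L'
        rw [← add_mul]
        congr 1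
        omega
      omega
  have hlabel : ∀ x y, b x % 2 = b y % 2 → wd M.letters w x y < L' → (b x, κ x) = (b y, κ y) := by
    intro x y hpar hxy
    have hl1 := M.depth_lipschitz0 hw hpos x y
    have hl2 := M.depth_lipschitz0 hw hpos y x
    rw [hd.symm y x] at hl2
    have hbb : b x = b y := by
      have h1 := hb1 x
      have h2 := hb2 x
      have h3 := hb1 y
      have h4 := hb2 y
      have h5 : b x * L' < (b y + 2) * L' := by
        have : (b y + 2) * L' = (b y + 1) * L' + L' := by ring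
        omega
      have h6 : b y * L' < (b x + 2) * L' := by
        have : (b x + 2) * L' = (b x + 1) * L' + L' := by ring
        omega
      have h7 := Nat.lt_of_mul_lt_mul_right h5
      have h8 := Nat.lt_of_mul_lt_mul_right h6
      omega
    have hκ : κ x = κ y := by
      show pfx M (mm (b x)) false x = pfx M (mm (b y)) false y
      rw [← hbb]
      rcases Nat.eq_zero_or_pos (mm (b x)) with h0 | h0
      · rw [h0]; rfl
      · obtain ⟨k, hk⟩ := Nat.exists_eq_succ_of_ne_zero h0.ne'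
        have hsh := hshallow x
        have hk' : mm (b x) = k + 1 := hk
        rw [hk'] at hsh ⊢
        by_cases hy : (pfx M (k + 1) false x)⁻¹ * y ∈ M.side (ty (k + 1) false)
        · exact (M.pfx_congr k false x hsh y hy).symm
        · exfalso
          obtain ⟨c, hc, hle⟩ := M.sep0 hw (M.pfx_self k false x hsh) hy
          have hcY := M.depth_le (M.pfx_gate k false x hsh c hc)
          have hl3 := M.depth_lipschitz0 hw hpos c x
          rw [hd.symm c x] at hl3
          have hbx := hb1 x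
          have hbpos : 2 ≤ b x := by
            by_contra hlt
            have : b x - 1 = 0 := by omega
            have : mm (b x) = 0 := by
              show (b x - 1) * L' = 0
              rw [this, zero_mul]
            omega
          have : b x * L' = mm (b x) + L' := by
            show b x * L' = (b x - 1) * L' + L'
            have : b x = (b x - 1) + 1 := by omega
            conv_lhs => rw [this]
            ring
          omega
    rw [hbb, hκ]
  refine ⟨N₁ + N₂, D₁ + D₂, fun q => ⟨fun k => if k < N₁ then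
      {x | b x % 2 = 0 ∧ (κ x)⁻¹ * x ∈ E₁ ((α (κ x))⁻¹ q) (ty (mm (b x)) false) k}
      else {x | b x % 2 = 1 ∧
        (κ x)⁻¹ * x ∈ E₂ ((α (κ x))⁻¹ q) (ty (mm (b x)) false) (k - N₁)}, ?_, ?_⟩⟩
  · intro x hxq
    have hπ : α ((κ x)⁻¹ * x) y₀ = (α (κ x))⁻¹ q := by
      rw [map_mul, map_inv, Equiv.Perm.mul_apply, hxq]
    rcases Nat.mod_two_eq_zero_or_one (b x) with h | h
    · obtain ⟨k, hk, hx⟩ := hE₁ _ _ _ (hκY x) hπ
      exact ⟨k, by omega, by simp only [hk, if_true]; exact ⟨h, hx⟩⟩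
    · obtain ⟨k, hk, hx⟩ := hE₂ _ _ _ (hκY x) hπ
      refine ⟨N₁ + k, by omega, ?_⟩
      have : ¬ (N₁ + k < N₁) := by omega
      simp only [this, if_false]
      refine ⟨h, ?_⟩
      simpa using hx
  · intro k hk
    have hRk : R k ≤ R (N₁ + N₂) := hR hk.le
    by_cases hk1 : k < N₁
    · simp only [hk1, if_true]
      refine Bd.of_label (fun x => (b x, κ x)) ?_ ?_
      · rintro x ⟨hx, -⟩ y ⟨hy, -⟩ hxy
        exact hlabel x y (by omega) (by omega)
      · rintro ⟨b0, p⟩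
        refine ((hB₁ ((α p)⁻¹ q) (ty (mm b0) false) k hk1).translate wd_inv p).mono
          ?_ le_rfl (by omega)
        rintro x ⟨⟨-, hx⟩, hxl⟩
        have h1 : b x = b0 := congrArg Prod.fst hxl
        have h2 : κ x = p := congrArg Prod.snd hxl
        rw [h1, h2] at hx
        exact hx
    · simp only [hk1, if_false]
      refine Bd.of_label (fun x => (b x, κ x)) ?_ ?_
      · rintro x ⟨hx, -⟩ y ⟨hy, -⟩ hxy
        exact hlabel x y (by omega) (by omega)
      · rintro ⟨b0, p⟩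
        have hB := hB₂ ((α p)⁻¹ q) (ty (mm b0) false) (k - N₁) (by omega)
        have e : N₁ + (k - N₁) = k := by omega
        simp only [e] at hB
        refine (hB.translate wd_inv p).mono ?_ le_rfl (by omega)
        rintro x ⟨⟨-, hx⟩, hxl⟩
        have h1 : b x = b0 := congrArg Prod.fst hxl
        have h2 : κ x = p := congrArg Prod.snd hxl
        rw [h1, h2] at hx
        exact hx

end Amalg

/-- Unions of at most `q` sets from a class all of whose members are covered by `m` families. -/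
lemma union_families {G : Type*} {e : G → G → ℕ} (hd : IsPM e) (m : ℕ) (F : Set (Set G))
    (h : ∀ r, ∃ D, ∀ Z ∈ F, ∃ S : ℕ → Set G, (∀ x ∈ Z, ∃ k < m, x ∈ S k) ∧
      ∀ k < m, Bd e (S k) r D) :
    ∀ q r, ∃ D, ∀ Z : ℕ → Set G, (∀ i < q, Z i ∈ F) → ∃ S : ℕ → Set G,
      (∀ i < q, ∀ x ∈ Z i, ∃ k < m, x ∈ S k) ∧ ∀ k < m, Bd e (S k) r D := by
  intro q
  induction q with
  | zero =>
    intro r
    exact ⟨0, fun Z _ => ⟨fun _ => ∅, fun i hi => absurd hi (Nat.not_lt_zero _),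
      fun k _ => bd_empty hd _ _⟩⟩
  | succ q ih =>
    intro r
    obtain ⟨D, hD⟩ := ih r
    obtain ⟨D', hD'⟩ := h (D + 2 * r)
    refine ⟨2 * D + 2 * r + D', fun Z hZ => ?_⟩
    obtain ⟨S, hS, hSB⟩ := hD Z (fun i hi => hZ i (by omega))
    obtain ⟨S', hS', hSB'⟩ := hD' (Z q) (hZ q (by omega))
    refine ⟨fun k => S k ∪ S' k, ?_, fun k hk => Bd.union hd (hSB k hk) (hSB' k hk) le_rfl⟩
    intro i hi x hx
    rcases Nat.lt_succ_iff_lt_or_eq.1 hi with h | h
    · obtain ⟨k, hk, hxk⟩ := hS i h x hx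
      exact ⟨k, hk, Or.inl hxk⟩
    · subst h
      obtain ⟨k, hk, hxk⟩ := hS' x hx
      exact ⟨k, hk, Or.inr hxk⟩

namespace Amalg

variable {G : Type*} [Group G] (M : Amalg G) {w : G → ℕ} {Y : Type*} (α : G →* Equiv.Perm Y)
  (y₀ : Y)

/-- Uniform covers of the fibres of an orbit map of an amalgam, when the stabiliser of the base
point meets the common subgroup in a set of finite asymptotic dimension. -/
theorem main_coverR (hw : Adm0 M.letters w) (hpos : ∀ s, s ∉ M.C → 1 ≤ w s) (m : ℕ)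
    (hα : ∀ t, ∃ K, ∀ q : Y, ∃ F : Finset Y, F.card ≤ K ∧ ∀ x c, α x y₀ = q →
      wd M.letters w x c ≤ t → α c y₀ ∈ F)
    (hC : ∀ r, ∃ D, ∃ S : ℕ → Set G,
      (∀ x ∈ M.C, α x y₀ = y₀ → ∃ k < m, x ∈ S k) ∧ ∀ k < m, Bd (wd M.letters w) (S k) r D)
    (hH : ∀ i, ∀ R : ℕ → ℕ, ∃ n D, ∃ A : ℕ → Set G,
      (∀ x ∈ M.H i, ∃ k < n, x ∈ A k) ∧ ∀ k < n, Bd (wd M.letters w) (A k) (R k) D)
    (R : ℕ → ℕ) :
    ∃ n D, ∀ q : Y, ∃ A : ℕ → Set G,
      (∀ x, α x y₀ = q → ∃ k < n, x ∈ A k) ∧ ∀ k < n, Bd (wd M.letters w) (A k) (R k) D := by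
  classical
  have hd := hw.isPM
  have hC' : ∀ r t, ∃ D, ∀ q : Y, ∃ S : ℕ → Set G,
      (∀ x ∈ Nbd (wd M.letters w) t {x | x ∈ M.C}, α x y₀ = q → ∃ k < m, x ∈ S k) ∧
      ∀ k < m, Bd (wd M.letters w) (S k) r D := by
    intro r t
    let 𝓕 : Set (Set G) := {Z | Z = ∅ ∨ ∃ c ∈ M.C,
      Z = {x | ∃ y, c⁻¹ * y ∈ M.C ∧ α (c⁻¹ * y) y₀ = y₀ ∧ wd M.letters w x y ≤ t}}
    have hF : ∀ r, ∃ D, ∀ Z ∈ 𝓕, ∃ S : ℕ → Set G, (∀ x ∈ Z, ∃ k < m, x ∈ S k) ∧
        ∀ k < m, Bd (wd M.letters w) (S k) r D := by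
      intro r
      obtain ⟨D, S, hS, hSB⟩ := hC (r + 2 * t)
      refine ⟨D + 2 * t, ?_⟩
      rintro Z (rfl | ⟨c, hc, rfl⟩)
      · exact ⟨fun _ => ∅, by simp, fun k _ => bd_empty hd _ _⟩
      · refine ⟨fun k => Nbd (wd M.letters w) t {x | c⁻¹ * x ∈ S k}, ?_, ?_⟩
        · rintro x ⟨y, hy, hy1, hxy⟩
          obtain ⟨k, hk, hyk⟩ := hS _ hy hy1
          exact ⟨k, hk, y, hyk, hxy⟩
        · intro k hk
          exact ((hSB k hk).translate wd_inv c).thicken hd
    obtain ⟨K, hK⟩ := hα t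
    obtain ⟨D, hD⟩ := union_families hd m 𝓕 hF K r
    refine ⟨D, fun q => ?_⟩
    obtain ⟨P, hPK, hP⟩ := hK q
    let enum : ℕ → Option Y := fun i => if h : i < P.card then some (P.equivFin.symm ⟨i, h⟩ : P).1
      else none
    let Z : ℕ → Set G := fun i => match enum i with
      | none => ∅
      | some p => if h : ∃ c ∈ M.C, α c y₀ = p then
          {x | ∃ y, h.choose⁻¹ * y ∈ M.C ∧ α (h.choose⁻¹ * y) y₀ = y₀ ∧ wd M.letters w x y ≤ t}
        else ∅
    have hZF : ∀ i < K, Z i ∈ 𝓕 := by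
      intro i _
      show (match enum i with
      | none => ∅
      | some p => if h : ∃ c ∈ M.C, α c y₀ = p then
          {x | ∃ y, h.choose⁻¹ * y ∈ M.C ∧ α (h.choose⁻¹ * y) y₀ = y₀ ∧ wd M.letters w x y ≤ t}
        else ∅ : Set G) ∈ 𝓕
      cases enum i with
      | none => exact Or.inl rfl
      | some p =>
        by_cases h : ∃ c ∈ M.C, α c y₀ = p
        · simp only [h, dif_pos]
          exact Or.inr ⟨h.choose, h.choose_spec.1, rfl⟩
        · simp only [h, dif_neg, not_false_eq_true]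
          exact Or.inl rfl
    obtain ⟨S, hS, hSB⟩ := hD Z hZF
    refine ⟨S, ?_, hSB⟩
    rintro x ⟨c, hc, hxc⟩ hxq
    have hp : α c y₀ ∈ P := hP x c hxq hxc
    set i : Fin P.card := P.equivFin ⟨_, hp⟩ with hi
    have hei : enum i.1 = some (α c y₀) := by
      show (if h : i.1 < P.card then some (P.equivFin.symm ⟨i.1, h⟩ : P).1 else none) = _
      rw [dif_pos i.2]
      congr 1
      have : P.equivFin.symm ⟨i.1, i.2⟩ = ⟨α c y₀, hp⟩ := by
        rw [Equiv.symm_apply_eq]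
      rw [this]
    refine hS i.1 (i.2.trans_le hPK) x ?_
    show x ∈ (match enum i.1 with
      | none => ∅
      | some p => if h : ∃ c ∈ M.C, α c y₀ = p then
          {x | ∃ y, h.choose⁻¹ * y ∈ M.C ∧ α (h.choose⁻¹ * y) y₀ = y₀ ∧ wd M.letters w x y ≤ t}
        else ∅ : Set G)
    rw [hei]
    have hex : ∃ c' ∈ M.C, α c' y₀ = α c y₀ := ⟨c, hc, rfl⟩
    simp only [hex, dif_pos]
    refine ⟨c, mul_mem (inv_mem hex.choose_spec.1) hc, ?_, hxc⟩
    rw [map_mul, map_inv, Equiv.Perm.mul_apply, Equiv.Perm.inv_eq_iff_eq]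
    exact hex.choose_spec.2.symm
  obtain ⟨n, D, hnD⟩ := M.main_cover_monoR α y₀ hw hpos m hC' hH
    (fun k => ∑ j ∈ Finset.range (k + 1), R j) (by
      intro a b hab
      exact Finset.sum_le_sum_of_subset (Finset.range_mono (by omega)))
  refine ⟨n, D, fun q => ?_⟩
  obtain ⟨A, h1, h2⟩ := hnD q
  refine ⟨A, h1, fun k hk => (h2 k hk).mono subset_rfl ?_ le_rfl⟩
  exact Finset.single_le_sum (f := R) (fun _ _ => Nat.zero_le _) (Finset.self_mem_range_succ k)

end Amalg

end Pool.Agent.Lib.MP_1df68a_gt
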