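import Pool.Agent.Lib.MP_1df68a_gt.Fibration
import Pool.Agent.Lib.MP_1df68a_gt.TowerR

set_option autoImplicit false

/-! Lengths modulo a commensurated subgroup and the two fibrations. -/

namespace Pool.Agent.Lib.MP_1df68a_gt

open Relation

/-- Greedy colouring of a graph of bounded degree on a countable set. -/
lemma exists_coloring {Y : Type*} [Countable Y] (r : Y → Y → Prop) (K : ℕ)
    (h : ∀ y, ∃ F : Finset Y, F.card ≤ K ∧ ∀ y', r y y' → y' ∈ F) :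
    ∃ c : Y → ℕ, (∀ y, c y < K + 1) ∧ ∀ y y', r y y' → r y' y → c y = c y' → y = y' := by
  classical
  obtain ⟨enc, henc⟩ := exists_injective_nat Y
  choose F hF hrF using h
  let c : Y → ℕ := (measure enc).wf.fix
    (fun y ih => sInf {v | ∀ y' (h : enc y' < enc y), y' ∈ F y → v ≠ ih y' h})
  have hc : ∀ y, c y = sInf {v | ∀ y', enc y' < enc y → y' ∈ F y → v ≠ c y'} := by
    intro y
    exact (measure enc).wf.fix_eq _ y
  have hmem : ∀ y, ∃ v, v < K + 1 ∧ v ∈ {v | ∀ y', enc y' < enc y → y' ∈ F y → v ≠ c y'} := by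
    intro y
    have : ((F y).image c).card < (Finset.range (K + 1)).card := by
      rw [Finset.card_range]
      exact lt_of_le_of_lt (Finset.card_image_le.trans (hF y)) (Nat.lt_succ_self K)
    obtain ⟨v, hv, hvn⟩ := Finset.exists_mem_notMem_of_card_lt_card this
    refine ⟨v, Finset.mem_range.1 hv, ?_⟩
    intro y' _ hy' hvy
    exact hvn (Finset.mem_image.2 ⟨y', hy', hvy.symm⟩)
  have hspec : ∀ y, c y < K + 1 ∧ ∀ y', enc y' < enc y → y' ∈ F y → c y ≠ c y' := by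
    intro y
    obtain ⟨v, hv, hvm⟩ := hmem y
    refine ⟨?_, ?_⟩
    · rw [hc y]
      exact lt_of_le_of_lt (Nat.sInf_le hvm) hv
    · have h1 := Nat.sInf_mem (⟨v, hvm⟩ : Set.Nonempty _)
      rw [← hc y] at h1
      exact h1
  refine ⟨c, fun y => (hspec y).1, ?_⟩
  intro y y' h1 h2 hcc
  by_contra hne
  rcases lt_trichotomy (enc y') (enc y) with h | h | h
  · exact (hspec y).2 y' h (hrF y y' h1) hcc
  · exact hne (henc h).symm
  · exact (hspec y').2 y h (hrF y' y h2) hcc.symm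

/-- Families for a real-valued distance give coarse families for an `ℕ`-valued one. -/
lemma coarse_of_real {Γ G Γ' : Type*} {e : G → G → ℕ} (he : IsPM e) (p : Γ → Γ') (ψ : Γ → G)
    (δ : Γ' → Γ' → ℝ) (n : ℕ) (U : ℕ → Set (Set Γ')) (r : ℕ → ℕ) (R : ℕ → ℝ)
    (hR : ∀ k < n, ∀ a b, e (ψ a) (ψ b) ≤ r k → δ (p a) (p b) ≤ R k)
    (hB : ∀ B : ℝ, ∃ D : ℕ, ∀ a b, δ (p a) (p b) ≤ B → e (ψ a) (ψ b) ≤ D)
    (hbdd : ∀ k < n, ∃ B : ℝ, ∀ V ∈ U k, ∀ x ∈ V, ∀ y ∈ V, δ x y ≤ B)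
    (hdisj : ∀ k < n, ∀ V ∈ U k, ∀ W ∈ U k, V ≠ W → ∀ x ∈ V, ∀ y ∈ W, R k < δ x y) :
    ∃ D, ∀ k < n, Bd e (ψ '' {a | ∃ V ∈ U k, p a ∈ V}) (r k) D := by
  have key : ∀ k < n, ∃ D, Bd e (ψ '' {a | ∃ V ∈ U k, p a ∈ V}) (r k) D := by
    intro k hk
    obtain ⟨B, hB'⟩ := hbdd k hk
    obtain ⟨D, hD⟩ := hB B
    refine ⟨D, ?_⟩
    intro x y hxy
    rcases hxy.cases_head with h | ⟨c, hc, _⟩
    · subst h; simp [he.self]
    obtain ⟨a, ⟨V, hV, haV⟩, rfl⟩ := hc.1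
    have hstay : ∀ y, ReflTransGen (Step e (ψ '' {a | ∃ V ∈ U k, p a ∈ V}) (r k)) (ψ a) y →
        ∃ b, p b ∈ V ∧ ψ b = y := by
      intro y hxy
      induction hxy with
      | refl => exact ⟨a, haV, rfl⟩
      | tail _ hbc ih =>
        obtain ⟨b, hb, rfl⟩ := ih
        obtain ⟨-, ⟨c, ⟨W, hW, hcW⟩, rfl⟩, hle⟩ := hbc
        have h1 := hR k hk _ _ hle
        have hVW : V = W := by
          by_contra hne
          exact absurd (hdisj k hk V hV W hW hne _ hb _ hcW) (not_lt.2 h1)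
        subst hVW
        exact ⟨c, hcW, rfl⟩
    obtain ⟨b, hb, rfl⟩ := hstay y hxy
    exact hD _ _ (hB' V hV _ haV _ hb)
  choose! D hD using key
  refine ⟨∑ k ∈ Finset.range n, D k, fun k hk => (hD k hk).mono subset_rfl le_rfl ?_⟩
  exact Finset.single_le_sum (f := D) (fun _ _ => Nat.zero_le _) (Finset.mem_range.2 hk)

section CosetLength

variable {G : Type*} [Group G] {S : Set G} {w : G → ℕ} {N : Subgroup G}

open Classical in
/-- The weight which vanishes on `N`. -/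
noncomputable def w0 (w : G → ℕ) (N : Subgroup G) (s : G) : ℕ := if s ∈ N then 0 else w s

lemma w0_le (s : G) : w0 w N s ≤ w s := by
  unfold w0
  split_ifs <;> omega

lemma w0_mem {s : G} (hs : s ∈ N) : w0 w N s = 0 := by simp [w0, hs]

lemma w0_notMem {s : G} (hs : s ∉ N) : w0 w N s = w s := by simp [w0, hs]

lemma adm0_w0 (h : Adm S w) : Adm0 S (w0 w N) := by
  refine ⟨h.gen, h.inv, fun s => ?_⟩
  by_cases hs : s ∈ N
  · rw [w0_mem hs, w0_mem (inv_mem hs)]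
  · rw [w0_notMem hs, w0_notMem (fun h => hs (by simpa using inv_mem h)), h.winv]

lemma len_w0_le (h : Adm S w) (g : G) : len S (w0 w N) g ≤ len S w g := by
  obtain ⟨l, hl, hp, hs⟩ := h.exists_list g
  have h1 := len_le (S := S) (w := w0 w N) l hl
  rw [hp] at h1
  refine h1.trans ?_
  rw [← hs]
  exact List.sum_le_sum fun s _ => w0_le s

lemma len_w0_mem (hNS : ∀ n ∈ N, n ∈ S) {n : G} (hn : n ∈ N) : len S (w0 w N) n = 0 := by
  have := len_le (S := S) (w := w0 w N) [n] (by simpa using hNS n hn)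
  simpa [w0_mem hn] using this

/-- Balls of the length with vanishing weights on a commensurated subgroup consist of finitely many
cosets. -/
lemma finite_ball0 (h : Adm S w)
    (hcomm : ∀ s ∈ S, ∃ F : Set G, F.Finite ∧ ∀ n ∈ N, ∃ f ∈ F, f⁻¹ * (n * s) ∈ N) (t : ℕ) :
    ∃ F : Set G, F.Finite ∧ ∀ g, len S (w0 w N) g ≤ t → ∃ f ∈ F, f⁻¹ * g ∈ N := by
  have key : ∀ t : ℕ, ∃ F : Set G, F.Finite ∧ ∀ l : List G, (∀ s ∈ l, s ∈ S) →
      (l.map (w0 w N)).sum ≤ t → ∀ n ∈ N, ∃ f ∈ F, f⁻¹ * (n * l.prod) ∈ N := by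
    intro t
    induction t with
    | zero =>
      refine ⟨{1}, Set.finite_singleton _, ?_⟩
      intro l
      induction l with
      | nil => intro _ _ n hn; exact ⟨1, rfl, by simpa using hn⟩
      | cons s l ih =>
        intro hl hsum n hn
        have hs0 : w0 w N s = 0 := by
          simp only [List.map_cons, List.sum_cons] at hsum
          omega
        have hsN : s ∈ N := by
          by_contra hs
          rw [w0_notMem hs] at hs0
          have := h.pos s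
          omega
        have := ih (fun t ht => hl t (by simp [ht])) (by
          simp only [List.map_cons, List.sum_cons] at hsum
          omega) (n * s) (mul_mem hn hsN)
        simpa [mul_assoc] using this
    | succ t iht =>
      obtain ⟨F, hF, hFl⟩ := iht
      choose! E hE hEs using hcomm
      refine ⟨{1} ∪ F ∪ Set.image2 (fun a b => a * b) (⋃ s ∈ {s | s ∈ S ∧ w s ≤ t + 1}, E s) F,
        ?_, ?_⟩
      · refine ((Set.finite_singleton _).union hF).union (Set.Finite.image2 _ ?_ hF)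
        refine Set.Finite.biUnion ((h.fin (t + 1)).subset fun s hs => hs.2) ?_
        intro s hs
        exact hE s hs.1
      · intro l
        induction l with
        | nil => intro _ _ n hn; exact ⟨1, Or.inl (Or.inl rfl), by simpa using hn⟩
        | cons s l ih =>
          intro hl hsum n hn
          by_cases hsN : s ∈ N
          · have := ih (fun t ht => hl t (by simp [ht])) (by
              simp only [List.map_cons, List.sum_cons] at hsum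
              omega) (n * s) (mul_mem hn hsN)
            simpa [mul_assoc] using this
          · have hpos := h.pos s
            have hws : w0 w N s = w s := w0_notMem hsN
            simp only [List.map_cons, List.sum_cons] at hsum
            have hsS : s ∈ S := hl s (by simp)
            obtain ⟨f₁, hf₁, hf₁'⟩ := hEs s hsS n hn
            obtain ⟨f₂, hf₂, hf₂'⟩ := hFl l (fun t ht => hl t (by simp [ht])) (by omega)
              (f₁⁻¹ * (n * s)) hf₁'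
            refine ⟨f₁ * f₂, Or.inr ⟨f₁, ?_, f₂, hf₂, rfl⟩, ?_⟩
            · refine Set.mem_biUnion (show s ∈ {s | s ∈ S ∧ w s ≤ t + 1} from ⟨hsS, by omega⟩) hf₁
            · have e1 : (f₁ * f₂)⁻¹ * (n * (s :: l).prod) =
                  f₂⁻¹ * (f₁⁻¹ * (n * s) * l.prod) := by
                rw [List.prod_cons]
                group
              rw [e1]
              exact hf₂'
  obtain ⟨F, hF, hFl⟩ := key t
  refine ⟨F, hF, fun g hg => ?_⟩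
  obtain ⟨l, hl, hp, hs⟩ := (adm0_w0 (N := N) h).exists_list g
  have := hFl l hl (by rw [hs]; exact hg) 1 (one_mem _)
  simpa [hp] using this

lemma wd_right (hw : Adm0 S w) {x y n : G} (hn : len S w n = 0) :
    wd S w x (y * n) ≤ wd S w x y := by
  unfold wd
  have := hw.len_mul (x⁻¹ * y) n
  rw [hn, mul_assoc] at this
  simpa using this

/-- Comparison of a real-valued invariant metric on a coset space with the coset length. -/
lemma coset_bounds (h : Adm S w) (hNS : ∀ n ∈ N, n ∈ S)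
    (hcomm : ∀ s ∈ S, ∃ F : Set G, F.Finite ∧ ∀ n ∈ N, ∃ f ∈ F, f⁻¹ * (n * s) ∈ N)
    {Γ : Type*} [Group Γ] (ψ : Γ →* G) (NΓ : Subgroup Γ) (hN : ∀ g, ψ g ∈ N ↔ g ∈ NΓ)
    (δ : Γ ⧸ NΓ → Γ ⧸ NΓ → ℝ) (hinv : ∀ (g : Γ) (x y : Γ ⧸ NΓ), δ (g • x) (g • y) = δ x y)
    (hfin : ∀ r : ℝ, {x : Γ ⧸ NΓ | δ ((1 : Γ) : Γ ⧸ NΓ) x ≤ r}.Finite) :
    (∀ r : ℕ, ∃ R : ℝ, 0 < R ∧ ∀ a b : Γ, wd S (w0 w N) (ψ a) (ψ b) ≤ r →
      δ (a : Γ ⧸ NΓ) (b : Γ ⧸ NΓ) ≤ R) ∧
    (∀ B : ℝ, ∃ D : ℕ, ∀ a b : Γ, δ (a : Γ ⧸ NΓ) (b : Γ ⧸ NΓ) ≤ B →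
      wd S (w0 w N) (ψ a) (ψ b) ≤ D) := by
  classical
  have hw0 := adm0_w0 (N := N) h
  have hone : ∀ a b : Γ, δ ((1 : Γ) : Γ ⧸ NΓ) ((a⁻¹ * b : Γ) : Γ ⧸ NΓ) =
      δ (a : Γ ⧸ NΓ) (b : Γ ⧸ NΓ) := by
    intro a b
    rw [← hinv a ((1 : Γ) : Γ ⧸ NΓ) ((a⁻¹ * b : Γ) : Γ ⧸ NΓ)]
    congr 1
    · show ((a * 1 : Γ) : Γ ⧸ NΓ) = _
      rw [mul_one]
    · show ((a * (a⁻¹ * b) : Γ) : Γ ⧸ NΓ) = _
      rw [mul_inv_cancel_left]
  have hwd : ∀ a b : Γ, wd S (w0 w N) (ψ a) (ψ b) = len S (w0 w N) (ψ (a⁻¹ * b)) := by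
    intro a b
    simp [wd]
  refine ⟨fun r => ?_, fun B => ?_⟩
  · obtain ⟨F, hF, hFr⟩ := finite_ball0 (N := N) h hcomm r
    let g : G → Γ := fun f => if h : ∃ a : Γ, f⁻¹ * ψ a ∈ N then h.choose else 1
    obtain ⟨R, hR⟩ := (hF.image (fun f => δ ((1 : Γ) : Γ ⧸ NΓ) (g f : Γ ⧸ NΓ))).bddAbove
    refine ⟨max R 1, by positivity, fun a b hab => ?_⟩
    rw [hwd] at hab
    obtain ⟨f, hf, hfN⟩ := hFr _ hab
    rw [← hone]
    have hex : ∃ a : Γ, f⁻¹ * ψ a ∈ N := ⟨_, hfN⟩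
    have hg : f⁻¹ * ψ (g f) ∈ N := by
      show f⁻¹ * ψ (if h : ∃ a : Γ, f⁻¹ * ψ a ∈ N then h.choose else 1) ∈ N
      rw [dif_pos hex]
      exact hex.choose_spec
    have heq : ((a⁻¹ * b : Γ) : Γ ⧸ NΓ) = (g f : Γ ⧸ NΓ) := by
      rw [QuotientGroup.eq, ← hN, map_mul, map_inv]
      have := mul_mem (inv_mem hfN) hg
      rwa [mul_inv_rev, inv_inv, mul_assoc, mul_inv_cancel_left] at this
    rw [heq]
    exact (hR ⟨f, hf, rfl⟩).trans (le_max_left _ _)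
  · obtain ⟨D, hD⟩ := ((hfin B).image (fun x => len S (w0 w N) (ψ x.out))).bddAbove
    refine ⟨D, fun a b hab => ?_⟩
    rw [← hone] at hab
    rw [hwd]
    have h1 := hD ⟨((a⁻¹ * b : Γ) : Γ ⧸ NΓ), hab, rfl⟩
    obtain ⟨n, hn⟩ := QuotientGroup.mk_out_eq_mul NΓ (a⁻¹ * b)
    have h2 : ψ (a⁻¹ * b) = ψ (((a⁻¹ * b : Γ) : Γ ⧸ NΓ).out) * ψ (n : Γ)⁻¹ := by
      rw [hn, ← map_mul]
      simp
    have h3 : len S (w0 w N) (ψ (n : Γ)⁻¹) = 0 :=
      len_w0_mem hNS ((hN _).2 (inv_mem n.2))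
    rw [h2]
    have h4 := hw0.len_mul (ψ (((a⁻¹ * b : Γ) : Γ ⧸ NΓ).out)) (ψ (n : Γ)⁻¹)
    have h1' : len S (w0 w N) (ψ (((a⁻¹ * b : Γ) : Γ ⧸ NΓ).out)) ≤ D := h1
    omega

/-- **Fibration over the coset space** of a commensurated subgroup. -/
theorem coset_fibration [Countable G] (h : Adm S w) (hNS : ∀ n ∈ N, n ∈ S)
    (hcomm : ∀ s ∈ S, ∃ F : Set G, F.Finite ∧ ∀ n ∈ N, ∃ f ∈ F, f⁻¹ * (n * s) ∈ N)
    (hbase : ∀ R : ℕ → ℕ, ∃ n D, ∃ A : ℕ → Set G, (∀ x, ∃ k < n, x ∈ A k) ∧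
      ∀ k < n, Bd (wd S (w0 w N)) (A k) (R k) D)
    (hN : ∀ R : ℕ → ℕ, ∃ n D, ∃ A : ℕ → Set G, (∀ x ∈ N, ∃ k < n, x ∈ A k) ∧
      ∀ k < n, Bd (wd S w) (A k) (R k) D) (R : ℕ → ℕ) :
    ∃ n D, ∃ A : ℕ → Set G, (∀ x, ∃ k < n, x ∈ A k) ∧ ∀ k < n, Bd (wd S w) (A k) (R k) D := by
  classical
  have hw0 := adm0_w0 (N := N) h
  have hd0 := hw0.isPM
  have hd := h.isPM
  let e : G ⧸ N → G ⧸ N → ℕ := fun q q' => wd S (w0 w N) q.out q'.out
  have he : IsPM e := ⟨fun q => hd0.self _, fun q q' => hd0.symm _ _, fun q q' q'' => hd0.tri _ _ _⟩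
  have hout : ∀ x : G, wd S (w0 w N) x ((x : G ⧸ N).out) = 0 := by
    intro x
    obtain ⟨n, hn⟩ := QuotientGroup.mk_out_eq_mul N x
    rw [hn]
    unfold wd
    rw [inv_mul_cancel_left]
    exact len_w0_mem hNS n.2
  have hle : ∀ x y, wd S (w0 w N) x y ≤ wd S w x y := fun x y => len_w0_le h _
  refine fibration hd he (fun x => (x : G ⧸ N)) id ?_ ?_ ?_ ?_ R
  · intro r x x' hxx'
    show wd S (w0 w N) ((x : G ⧸ N).out) ((x' : G ⧸ N).out) ≤ r
    have h1 := hd0.tri ((x : G ⧸ N).out) x ((x' : G ⧸ N).out)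
    have h2 := hd0.tri x x' ((x' : G ⧸ N).out)
    have h3 := hout x
    have h4 := hout x'
    have h5 := hle x x'
    have h6 := hd0.symm x ((x : G ⧸ N).out)
    omega
  · intro r
    obtain ⟨n, D, A, hA, hAB⟩ := hbase r
    refine ⟨n, D, fun k => {q | q.out ∈ A k}, fun q => hA _, ?_⟩
    intro k hk q q' hqq'
    refine hAB k hk q.out q'.out ?_
    induction hqq' with
    | refl => exact ReflTransGen.refl
    | tail _ hbc ih => exact ih.tail ⟨hbc.1, hbc.2.1, hbc.2.2⟩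
  · intro T
    obtain ⟨F, hF, hFT⟩ := finite_ball0 (N := N) h hcomm T
    have : Countable (G ⧸ N) := Quotient.countable
    obtain ⟨c, hc1, hc2⟩ := exists_coloring (fun q q' : G ⧸ N => e q q' ≤ T) hF.toFinset.card
      (fun q => ⟨hF.toFinset.image (fun f => ((q.out * f : G) : G ⧸ N)),
        Finset.card_image_le, fun q' hqq' => by
          obtain ⟨f, hf, hfN⟩ := hFT (q.out⁻¹ * q'.out) hqq'
          rw [Finset.mem_image]
          refine ⟨f, hF.mem_toFinset.2 hf, ?_⟩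
          rw [← QuotientGroup.out_eq' q']
          rw [QuotientGroup.eq]
          rw [mul_inv_rev, mul_assoc]
          exact hfN⟩)
    refine ⟨_, c, hc1, fun y _ y' _ hyy' hT => hc2 y y' hT ?_ hyy'⟩
    rw [he.symm]
    exact hT
  · intro r
    obtain ⟨n, D, A, hA, hAB⟩ := hN r
    refine ⟨n, D, fun q => ⟨fun k => {x | q.out⁻¹ * x ∈ A k}, ?_, fun k hk =>
      (hAB k hk).translate wd_inv q.out⟩⟩
    intro x hx
    have hx' : q.out⁻¹ * x ∈ N := by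
      rw [← QuotientGroup.eq, QuotientGroup.out_eq']
      exact hx.symm
    exact hA _ hx'

/-- **Fibration over an orbit** of an isometric action. -/
theorem action_fibration [Countable G] (h : Adm S w)
    (hcomm : ∀ s ∈ S, ∃ F : Set G, F.Finite ∧ ∀ n ∈ N, ∃ f ∈ F, f⁻¹ * (n * s) ∈ N)
    {Y : Type*} (α : G →* Equiv.Perm Y) (y₀ : Y) (hNα : ∀ n ∈ N, α n y₀ = y₀)
    (dY : Y → Y → ℝ) (h0 : ∀ x, dY x x = 0) (hsymm : ∀ x y, dY x y = dY y x)
    (htri : ∀ x y z, dY x z ≤ dY x y + dY y z)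
    (hinv : ∀ g x y, dY (α g x) (α g y) = dY x y) (hfin : ∀ r : ℝ, {x | dY y₀ x ≤ r}.Finite)
    (hY : ∀ R : ℕ → ℝ, (∀ k, 0 < R k) → ∃ n : ℕ, ∃ U : ℕ → Set (Set Y),
      (∀ k < n, ∃ B : ℝ, ∀ V ∈ U k, ∀ x ∈ V, ∀ y ∈ V, dY x y ≤ B) ∧
      (∀ k < n, ∀ V ∈ U k, ∀ W ∈ U k, V ≠ W → ∀ x ∈ V, ∀ y ∈ W, R k < dY x y) ∧
      (∀ x : Y, ∃ k < n, ∃ V ∈ U k, x ∈ V))
    (hfib : ∀ R : ℕ → ℕ, ∃ n D, ∀ q : Y, ∃ A : ℕ → Set G,
      (∀ x, α x y₀ = q → ∃ k < n, x ∈ A k) ∧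
      ∀ k < n, Bd (wd S (w0 w N)) (A k) (R k) D) (R : ℕ → ℕ) :
    ∃ n D, ∃ A : ℕ → Set G, (∀ x, ∃ k < n, x ∈ A k) ∧
      ∀ k < n, Bd (wd S (w0 w N)) (A k) (R k) D := by
  classical
  have hd0 := (adm0_w0 (N := N) h).isPM
  let e : Y → Y → ℕ := fun x y => ⌈dY x y⌉₊
  have he : IsPM e := by
    refine ⟨fun x => ?_, fun x y => ?_, fun x y z => ?_⟩
    · show ⌈dY x x⌉₊ = 0
      rw [h0]; simp
    · show ⌈dY x y⌉₊ = ⌈dY y x⌉₊
      rw [hsymm]
    · show ⌈dY x z⌉₊ ≤ ⌈dY x y⌉₊ + ⌈dY y z⌉₊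
      rw [Nat.ceil_le]
      push_cast
      exact (htri x y z).trans (add_le_add (Nat.le_ceil _) (Nat.le_ceil _))
  have hle : ∀ x y (r : ℕ), e x y ≤ r ↔ dY x y ≤ r := fun x y r => Nat.ceil_le
  have hone : ∀ a b : G, dY y₀ (α (a⁻¹ * b) y₀) = dY (α a y₀) (α b y₀) := by
    intro a b
    rw [← hinv a y₀ (α (a⁻¹ * b) y₀), ← Equiv.Perm.mul_apply, ← map_mul, mul_inv_cancel_left]
  have hcount : Countable Y := by
    rw [← Set.countable_univ_iff]
    have : (Set.univ : Set Y) = ⋃ n : ℕ, {x | dY y₀ x ≤ n} := by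
      symm
      rw [Set.eq_univ_iff_forall]
      intro x
      obtain ⟨n, hn⟩ := exists_nat_ge (dY y₀ x)
      exact Set.mem_iUnion.2 ⟨n, hn⟩
    rw [this]
    exact Set.countable_iUnion fun n => (hfin n).countable
  have hρ : ∀ r : ℕ, ∃ ρ : ℕ, ∀ x x', wd S (w0 w N) x x' ≤ r → e (α x y₀) (α x' y₀) ≤ ρ := by
    intro r
    obtain ⟨F, hF, hFr⟩ := finite_ball0 (N := N) h hcomm r
    obtain ⟨ρ, hρ⟩ := (hF.image (fun f => ⌈dY y₀ (α f y₀)⌉₊)).bddAbove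
    refine ⟨ρ, fun x x' hxx' => ?_⟩
    obtain ⟨f, hf, hfN⟩ := hFr _ hxx'
    have h1 : α f y₀ = α (x⁻¹ * x') y₀ := by
      have := hNα _ hfN
      rw [map_mul, map_inv, Equiv.Perm.mul_apply, Equiv.Perm.inv_eq_iff_eq] at this
      exact this.symm
    show ⌈dY (α x y₀) (α x' y₀)⌉₊ ≤ ρ
    rw [← hone, ← h1]
    exact hρ ⟨f, hf, rfl⟩
  choose ρ hρ using hρ
  refine fibration hd0 he (fun x => α x y₀) ρ hρ ?_ ?_ hfib R
  · intro r
    obtain ⟨n, U, hU1, hU2, hU3⟩ := hY (fun k => (r k : ℝ) + 1) (fun k => by positivity)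
    obtain ⟨D, hD⟩ := coarse_of_real he (fun x : Y => x) (fun x : Y => x) dY n U r
      (fun k => (r k : ℝ) + 1) (fun k _ a b hab => by
        have := (hle a b (r k)).1 hab
        linarith) (fun B => ⟨⌈B⌉₊, fun a b hab => Nat.ceil_le_ceil hab⟩) hU1 hU2
    refine ⟨n, D, _, ?_, hD⟩
    intro x
    obtain ⟨k, hk, V, hV, hx⟩ := hU3 x
    exact ⟨k, hk, x, ⟨V, hV, hx⟩, rfl⟩
  · intro T
    have hF := hfin T
    obtain ⟨c, hc1, hc2⟩ := exists_coloring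
      (fun q q' : Y => (∃ a, α a y₀ = q) ∧ (∃ b, α b y₀ = q') ∧ e q q' ≤ T) hF.toFinset.card
      (fun q => by
        by_cases hq : ∃ a, α a y₀ = q
        · obtain ⟨a, rfl⟩ := hq
          refine ⟨hF.toFinset.image (fun y => α a y), Finset.card_image_le, ?_⟩
          rintro _ ⟨-, ⟨b, rfl⟩, hT⟩
          rw [Finset.mem_image]
          refine ⟨α (a⁻¹ * b) y₀, ?_, ?_⟩
          · rw [hF.mem_toFinset]
            show dY y₀ _ ≤ T
            rw [hone]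
            exact (hle _ _ _).1 hT
          · rw [← Equiv.Perm.mul_apply, ← map_mul, mul_inv_cancel_left]
        · exact ⟨∅, by simp, fun q' hqq' => absurd hqq'.1 hq⟩)
    refine ⟨_, c, hc1, ?_⟩
    rintro _ ⟨a, rfl⟩ _ ⟨b, rfl⟩ hyy' hT
    refine hc2 _ _ ⟨⟨a, rfl⟩, ⟨b, rfl⟩, hT⟩ ⟨⟨b, rfl⟩, ⟨a, rfl⟩, ?_⟩ hyy'
    rw [he.symm]
    exact hT

end CosetLength

end Pool.Agent.Lib.MP_1df68a_gt
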