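import Mathlib

set_option autoImplicit false

/-! Definitions used in the statement of `Results/MP_1df68a_gt/FiberedC.lean`. -/

namespace Pool.Agent.Lib.MP_1df68a_gt

/-- `d` is a metric on `X` all of whose balls are finite. -/
structure ProperMetric {X : Type} (d : X → X → ℝ) : Prop where
  symm : ∀ x y, d x y = d y x
  self : ∀ x, d x x = 0
  sep : ∀ x y, d x y = 0 → x = y
  tri : ∀ x y z, d x z ≤ d x y + d y z
  fin : ∀ (x : X) (r : ℝ), {y : X | d x y ≤ r}.Finite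

/-- Asymptotic property C. -/
def HasAPC {X : Type} (d : X → X → ℝ) : Prop :=
  ∀ R : ℕ → ℝ, (∀ k, 0 < R k) → ∃ n : ℕ, ∃ U : ℕ → Set (Set X),
    (∀ k < n, ∃ B : ℝ, ∀ V ∈ U k, ∀ x ∈ V, ∀ y ∈ V, d x y ≤ B) ∧
    (∀ k < n, ∀ V ∈ U k, ∀ W ∈ U k, V ≠ W → ∀ x ∈ V, ∀ y ∈ W, R k < d x y) ∧
    (∀ x : X, ∃ k < n, ∃ V ∈ U k, x ∈ V)

/-- The subset `Z` of `X` has finite asymptotic dimension: for some `m` and every `R > 0` it is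
covered by `m` uniformly bounded `R`-disjoint families. -/
def FinAsdimOn {X : Type} (d : X → X → ℝ) (Z : Set X) : Prop :=
  ∃ m : ℕ, ∀ R : ℝ, 0 < R → ∃ U : ℕ → Set (Set X),
    (∀ k < m, ∃ B : ℝ, ∀ V ∈ U k, ∀ x ∈ V, ∀ y ∈ V, d x y ≤ B) ∧
    (∀ k < m, ∀ V ∈ U k, ∀ W ∈ U k, V ≠ W → ∀ x ∈ V, ∀ y ∈ W, R < d x y) ∧
    (∀ x ∈ Z, ∃ k < m, ∃ V ∈ U k, x ∈ V)

end Pool.Agent.Lib.MP_1df68a_gt
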