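import Pool.Agent.Lib.MP_1df68a_gt.Coarse

set_option autoImplicit false

/-! A fibration theorem for asymptotic property C (coarse form, `ℕ`-valued pseudometrics). -/

namespace Pool.Agent.Lib.MP_1df68a_gt

open Relation

variable {X Y : Type*}

lemma step_symm {d : X → X → ℕ} (hd : IsPM d) {A : Set X} {r : ℕ} {x y : X}
    (h : Step d A r x y) : Step d A r y x := ⟨h.2.1, h.1, by rw [hd.symm]; exact h.2.2⟩

lemma chain_symm {d : X → X → ℕ} (hd : IsPM d) {A : Set X} {r : ℕ} {x y : X}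
    (h : ReflTransGen (Step d A r) x y) : ReflTransGen (Step d A r) y x := by
  induction h with
  | refl => exact ReflTransGen.refl
  | tail _ hbc ih => exact ReflTransGen.head (step_symm hd hbc) ih

/-- The claim proved by bar induction in the fibration theorem. -/
def FibClaim (d : X → X → ℕ) (e : Y → Y → ℕ) (f : X → Y) (R Q T rm : ℕ → ℕ)
    (κ : ℕ → Y → ℕ) (k : ℕ) (S : ℕ → ℕ) : Prop :=
  ∀ (A : ℕ → Set X) (W : Set Y), W ⊆ Set.range f →
    (∀ j < k, ∀ w ∈ W, ∀ w' ∈ W, e w w' ≤ T j → w = w') →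
    (∀ j < k, ∃ δ, δ + 2 * rm j ≤ S j ∧ ∀ w ∈ W, ∀ i,
      Bd d (A j ∩ {x | κ j (f x) = i} ∩ {x | e (f x) w ≤ T j}) (R (Q j + i)) δ) →
    (∀ j, ∃ D, ∀ i, Bd d (A j ∩ {x | κ j (f x) = i}) (R (Q j + i)) D) →
    (∃ J, ∀ j ≥ J, A j = ∅) →
    ∃ A' : ℕ → Set X, (∀ j, A j ⊆ A' j) ∧ (∀ j, A' j ⊆ A j ∪ f ⁻¹' W) ∧
      (∀ j, ∃ D, ∀ i, Bd d (A' j ∩ {x | κ j (f x) = i}) (R (Q j + i)) D) ∧
      (∃ J, ∀ j ≥ J, A' j = ∅) ∧ (∀ x, f x ∈ W → ∃ j, x ∈ A' j)

section

variable {d : X → X → ℕ} {e : Y → Y → ℕ} {f : X → Y} {R Q T rm : ℕ → ℕ} {κ : ℕ → Y → ℕ}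

lemma FibClaim.congr {k : ℕ} {S S' : ℕ → ℕ} (h : ∀ j < k, S j = S' j)
    (hS : FibClaim d e f R Q T rm κ k S) : FibClaim d e f R Q T rm κ k S' := by
  intro A W h0 h1 h2 h3 h4
  refine hS A W h0 h1 ?_ h3 h4
  intro j hj
  obtain ⟨δ, hδ, h5⟩ := h2 j hj
  exact ⟨δ, by rw [h j hj]; exact hδ, h5⟩

/-- Base case: the fibres are covered by `k` families. -/
lemma fib_base (hd : IsPM d) (ρ : ℕ → ℕ) (hf : ∀ r x x', d x x' ≤ r → e (f x) (f x') ≤ ρ r)
    (hlab : ∀ j i, ∃ lab : Y → Set Y,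
      (∀ y y', κ j y = i → κ j y' = i → e y y' ≤ ρ (R (Q j + i)) → lab y = lab y') ∧
      (∀ y y', κ j y = i → κ j y' = i → lab y = lab y' → e y y' ≤ T j))
    (hrm : ∀ j y, R (Q j + κ j y) ≤ rm j)
    {k : ℕ} {S : ℕ → ℕ}
    (hgood : ∃ D, ∀ y, ∃ B : ℕ → Set X, (∀ x, f x = y → ∃ j < k, x ∈ B j) ∧
      ∀ j < k, Bd d (B j) (S j) D) :
    FibClaim d e f R Q T rm κ k S := by
  intro A W _ h1 h2 h3 h4
  obtain ⟨D₀, hB⟩ := hgood
  choose B hBcov hBbd using hB
  obtain ⟨J, hJ⟩ := h4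
  refine ⟨fun j => A j ∪ {x | j < k ∧ f x ∈ W ∧ x ∈ B (f x) j}, ?_, ?_, ?_, ?_, ?_⟩
  · intro j x hx
    exact Or.inl hx
  · rintro j x (hx | hx)
    · exact Or.inl hx
    · exact Or.inr hx.2.1
  · intro j
    obtain ⟨D, hD⟩ := h3 j
    by_cases hj : j < k
    swap
    · refine ⟨D, fun i => (hD i).mono ?_ le_rfl le_rfl⟩
      rintro x ⟨hx | hx, hxi⟩
      · exact ⟨hx, hxi⟩
      · exact absurd hx.1 hj
    obtain ⟨δ, hδ, hδB⟩ := h2 j hj
    refine ⟨max D (2 * δ + 2 * rm j + D₀), fun i => ?_⟩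
    by_cases hne : ∃ y, κ j y = i
    swap
    · refine (bd_empty hd (R (Q j + i)) _).mono ?_ le_rfl (le_max_left _ _) (D := D)
      rintro x ⟨-, hx⟩
      exact absurd ⟨f x, hx⟩ hne
    have hRi : R (Q j + i) ≤ rm j := by
      obtain ⟨y, hy⟩ := hne
      have := hrm j y
      rwa [hy] at this
    obtain ⟨lab, hlab1, hlab2⟩ := hlab j i
    refine Bd.of_label (fun x => lab (f x)) ?_ ?_
    · rintro x ⟨-, hx⟩ y ⟨-, hy⟩ hxy
      exact hlab1 _ _ hx hy (hf _ _ _ hxy)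
    · intro c
      by_cases hw : ∃ x₀, f x₀ ∈ W ∧ κ j (f x₀) = i ∧ lab (f x₀) = c
      · obtain ⟨x₀, hx₀W, hx₀i, hx₀c⟩ := hw
        have hun : Bd d ((A j ∩ {x | κ j (f x) = i} ∩ {x | e (f x) (f x₀) ≤ T j}) ∪ B (f x₀) j)
            (R (Q j + i)) (2 * δ + 2 * R (Q j + i) + D₀) :=
          Bd.union hd (hδB _ hx₀W i) (hBbd (f x₀) j hj) (by omega)
        refine hun.mono ?_ le_rfl ?_
        · rintro x ⟨⟨hx | hx, hxi⟩, hxc⟩
          · left
            refine ⟨⟨hx, hxi⟩, ?_⟩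
            exact hlab2 _ _ hxi hx₀i (by rw [hx₀c]; exact hxc)
          · right
            have hT : e (f x) (f x₀) ≤ T j := hlab2 _ _ hxi hx₀i (by rw [hx₀c]; exact hxc)
            have := h1 j hj _ hx.2.1 _ hx₀W hT
            rw [← this]
            exact hx.2.2
        · exact le_trans (by omega) (le_max_right _ _)
      · refine (hD i).mono ?_ le_rfl (le_max_left _ _)
        rintro x ⟨⟨hx | hx, hxi⟩, hxc⟩
        · exact ⟨hx, hxi⟩
        · exact absurd ⟨x, hx.2.1, hxi, hxc⟩ hw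
  · refine ⟨max J k, fun j hj => ?_⟩
    have h1 : J ≤ j := le_trans (le_max_left _ _) hj
    have h2 : ¬ j < k := not_lt.2 (le_trans (le_max_right _ _) hj)
    show A j ∪ {x | j < k ∧ f x ∈ W ∧ x ∈ B (f x) j} = ∅
    rw [hJ j h1]
    ext x
    simp [h2]
  · intro x hx
    obtain ⟨j, hj, hxj⟩ := hBcov (f x) x rfl
    exact ⟨j, Or.inr ⟨hj, hx, hxj⟩⟩

/-- Induction step: split into finitely many classes at the next level. -/
lemma fib_step
    (hcol : ∀ T : ℕ, ∃ M, ∃ c : Y → ℕ, (∀ y, c y < M) ∧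
      ∀ y ∈ Set.range f, ∀ y' ∈ Set.range f, c y = c y' → e y y' ≤ T → y = y')
    {k : ℕ} {S : ℕ → ℕ}
    (hnext : ∀ v, FibClaim d e f R Q T rm κ (k + 1) (Function.update S k v)) :
    FibClaim d e f R Q T rm κ k S := by
  intro A W h0 h1 h2 h3 h4
  obtain ⟨M, c, hcM, hc⟩ := hcol (T k)
  have key : ∀ m : ℕ, ∃ A' : ℕ → Set X, (∀ j, A j ⊆ A' j) ∧
      (∀ j, A' j ⊆ A j ∪ f ⁻¹' {w | w ∈ W ∧ c w < m}) ∧
      (∀ j, ∃ D, ∀ i, Bd d (A' j ∩ {x | κ j (f x) = i}) (R (Q j + i)) D) ∧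
      (∃ J, ∀ j ≥ J, A' j = ∅) ∧ (∀ x, f x ∈ W → c (f x) < m → ∃ j, x ∈ A' j) := by
    intro m
    induction m with
    | zero =>
      exact ⟨A, fun _ => subset_rfl, fun _ => Set.subset_union_left, h3, h4,
        fun x _ hx => absurd hx (Nat.not_lt_zero _)⟩
    | succ m ih =>
      obtain ⟨A₁, hA₁, hA₁', h3', h4', hcov⟩ := ih
      obtain ⟨Dk, hDk⟩ := h3' k
      have g1 : ∀ j < k + 1, ∀ w ∈ {w | w ∈ W ∧ c w = m}, ∀ w' ∈ {w | w ∈ W ∧ c w = m},
          e w w' ≤ T j → w = w' := by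
        intro j hj w hw w' hw' hww'
        rcases Nat.lt_succ_iff_lt_or_eq.1 hj with h | h
        · exact h1 j h w hw.1 w' hw'.1 hww'
        · subst h
          exact hc w (h0 hw.1) w' (h0 hw'.1) (hw.2.trans hw'.2.symm) hww'
      have g2 : ∀ j < k + 1, ∃ δ, δ + 2 * rm j ≤ Function.update S k (Dk + 2 * rm k) j ∧
          ∀ w ∈ {w | w ∈ W ∧ c w = m}, ∀ i,
          Bd d (A₁ j ∩ {x | κ j (f x) = i} ∩ {x | e (f x) w ≤ T j}) (R (Q j + i)) δ := by
        intro j hj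
        rcases Nat.lt_succ_iff_lt_or_eq.1 hj with h | h
        · obtain ⟨δ, hδ, hδB⟩ := h2 j h
          refine ⟨δ, ?_, ?_⟩
          · rw [Function.update_of_ne (by omega)]
            exact hδ
          · intro w hw i
            refine (hδB w hw.1 i).mono ?_ le_rfl le_rfl
            rintro x ⟨⟨hx, hxi⟩, hxT⟩
            refine ⟨⟨?_, hxi⟩, hxT⟩
            rcases hA₁' j hx with hx | hx
            · exact hx
            · exfalso
              have := h1 j h (f x) hx.1 w hw.1 hxT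
              have h5 : c (f x) < m := hx.2
              rw [this, show c w = m from hw.2] at h5
              exact lt_irrefl _ h5
        · subst h
          refine ⟨Dk, ?_, ?_⟩
          · rw [Function.update_self]
          · intro w _ i
            exact (hDk i).mono Set.inter_subset_left le_rfl le_rfl
      obtain ⟨A₂, hA₂, hA₂', h3'', h4'', hcov'⟩ :=
        hnext (Dk + 2 * rm k) A₁ {w | w ∈ W ∧ c w = m} (fun w hw => h0 hw.1) g1 g2 h3' h4'
      refine ⟨A₂, fun j => (hA₁ j).trans (hA₂ j), ?_, h3'', h4'', ?_⟩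
      · intro j x hx
        rcases hA₂' j hx with hx | hx
        · rcases hA₁' j hx with hx | hx
          · exact Or.inl hx
          · exact Or.inr ⟨hx.1, Nat.lt_succ_of_lt hx.2⟩
        · exact Or.inr ⟨hx.1, by rw [show c (f x) = m from hx.2]; exact Nat.lt_succ_self m⟩
      · intro x hxW hxc
        rcases Nat.lt_succ_iff_lt_or_eq.1 hxc with h | h
        · obtain ⟨j, hj⟩ := hcov x hxW h
          exact ⟨j, hA₂ j hj⟩
        · exact hcov' x ⟨hxW, h⟩
  obtain ⟨A', hA', hA'', h3', h4', hcov⟩ := key M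
  refine ⟨A', hA', ?_, h3', h4', fun x hx => hcov x hx (hcM _)⟩
  intro j x hx
  rcases hA'' j hx with hx | hx
  · exact Or.inl hx
  · exact Or.inr hx.1

/-- The claim at level `0`, by bar induction. -/
lemma fib_bar (hd : IsPM d) (ρ : ℕ → ℕ) (hf : ∀ r x x', d x x' ≤ r → e (f x) (f x') ≤ ρ r)
    (hlab : ∀ j i, ∃ lab : Y → Set Y,
      (∀ y y', κ j y = i → κ j y' = i → e y y' ≤ ρ (R (Q j + i)) → lab y = lab y') ∧
      (∀ y y', κ j y = i → κ j y' = i → lab y = lab y' → e y y' ≤ T j))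
    (hrm : ∀ j y, R (Q j + κ j y) ≤ rm j)
    (hcol : ∀ T : ℕ, ∃ M, ∃ c : Y → ℕ, (∀ y, c y < M) ∧
      ∀ y ∈ Set.range f, ∀ y' ∈ Set.range f, c y = c y' → e y y' ≤ T → y = y')
    (hfib : ∀ r : ℕ → ℕ, ∃ n D, ∀ y, ∃ B : ℕ → Set X, (∀ x, f x = y → ∃ k < n, x ∈ B k) ∧
      ∀ k < n, Bd d (B k) (r k) D) (S₀ : ℕ → ℕ) :
    FibClaim d e f R Q T rm κ 0 S₀ := by
  by_contra hcon
  have hstep : ∀ k S, ¬ FibClaim d e f R Q T rm κ k S →
      ∃ v, ¬ FibClaim d e f R Q T rm κ (k + 1) (Function.update S k v) := by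
    intro k S h
    by_contra hall
    push Not at hall
    exact h (fib_step hcol hall)
  choose! v hv using hstep
  let s : ℕ → (ℕ → ℕ) := fun k => Nat.rec S₀ (fun k S => Function.update S k (v k S)) k
  have hs : ∀ k, s (k + 1) = Function.update (s k) k (v k (s k)) := fun k => rfl
  have hbad : ∀ k, ¬ FibClaim d e f R Q T rm κ k (s k) := by
    intro k
    induction k with
    | zero => exact hcon
    | succ k ih => rw [hs]; exact hv k _ ih
  have hst : ∀ k j, j < k → s k j = s (j + 1) j := by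
    intro k
    induction k with
    | zero => intro j hj; exact absurd hj (Nat.not_lt_zero _)
    | succ k ih =>
      intro j hj
      rcases Nat.lt_succ_iff_lt_or_eq.1 hj with h | h
      · rw [hs, Function.update_of_ne (by omega)]
        exact ih j h
      · subst h; rfl
  obtain ⟨n, D, hn⟩ := hfib (fun j => s (j + 1) j)
  have := fib_base (e := e) (T := T) (rm := rm) (κ := κ) (Q := Q) (R := R) hd ρ hf hlab hrm
    (k := n) (S := fun j => s (j + 1) j) ⟨D, hn⟩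
  exact hbad n (this.congr fun j hj => (hst n j hj).symm)

end

/-- **Fibration theorem**: if `f : X → Y` is bornologous, `Y` has bounded geometry and asymptotic
property C, and the fibres have asymptotic property C uniformly, then `X` has asymptotic
property C. -/
theorem fibration {d : X → X → ℕ} {e : Y → Y → ℕ} (hd : IsPM d) (he : IsPM e)
    (f : X → Y) (ρ : ℕ → ℕ) (hf : ∀ r x x', d x x' ≤ r → e (f x) (f x') ≤ ρ r)
    (hY : ∀ r : ℕ → ℕ, ∃ n D, ∃ A : ℕ → Set Y, (∀ y, ∃ k < n, y ∈ A k) ∧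
      ∀ k < n, Bd e (A k) (r k) D)
    (hcol : ∀ T : ℕ, ∃ M, ∃ c : Y → ℕ, (∀ y, c y < M) ∧
      ∀ y ∈ Set.range f, ∀ y' ∈ Set.range f, c y = c y' → e y y' ≤ T → y = y')
    (hfib : ∀ r : ℕ → ℕ, ∃ n D, ∀ y, ∃ B : ℕ → Set X, (∀ x, f x = y → ∃ k < n, x ∈ B k) ∧
      ∀ k < n, Bd d (B k) (r k) D)
    (R : ℕ → ℕ) :
    ∃ n D, ∃ A : ℕ → Set X, (∀ x, ∃ k < n, x ∈ A k) ∧ ∀ k < n, Bd d (A k) (R k) D := by
  choose N T₀ E hEcov hEbd using fun q : ℕ => hY (fun k => ρ (R (q + k)))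
  choose κ₀ hκN hκE using hEcov
  let Q : ℕ → ℕ := fun j => Nat.rec 0 (fun _ q => q + N q) j
  have hQ : ∀ j, Q (j + 1) = Q j + N (Q j) := fun j => rfl
  have hQmono : Monotone Q := monotone_nat_of_le_succ fun j => by rw [hQ]; omega
  let T : ℕ → ℕ := fun j => T₀ (Q j)
  let κ : ℕ → Y → ℕ := fun j => κ₀ (Q j)
  let rm : ℕ → ℕ := fun j => ∑ i ∈ Finset.range (N (Q j)), R (Q j + i)
  have hrm : ∀ j y, R (Q j + κ j y) ≤ rm j := by
    intro j y
    exact Finset.single_le_sum (f := fun i => R (Q j + i)) (fun _ _ => Nat.zero_le _)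
      (Finset.mem_range.2 (hκN (Q j) y))
  have hlab : ∀ j i, ∃ lab : Y → Set Y,
      (∀ y y', κ j y = i → κ j y' = i → e y y' ≤ ρ (R (Q j + i)) → lab y = lab y') ∧
      (∀ y y', κ j y = i → κ j y' = i → lab y = lab y' → e y y' ≤ T j) := by
    intro j i
    refine ⟨fun y => {z | ReflTransGen (Step e (E (Q j) i) (ρ (R (Q j + i)))) y z}, ?_, ?_⟩
    · intro y y' hy hy' hyy'
      have hyE : y ∈ E (Q j) i := by have := hκE (Q j) y; rwa [show κ₀ (Q j) y = i from hy] at this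
      have hyE' : y' ∈ E (Q j) i := by
        have := hκE (Q j) y'; rwa [show κ₀ (Q j) y' = i from hy'] at this
      have hst : Step e (E (Q j) i) (ρ (R (Q j + i))) y y' := ⟨hyE, hyE', hyy'⟩
      ext z
      constructor
      · intro hz
        exact ReflTransGen.head (step_symm he hst) hz
      · intro hz
        exact ReflTransGen.head hst hz
    · intro y y' hy hy' hyy'
      have h1 : y' ∈ {z | ReflTransGen (Step e (E (Q j) i) (ρ (R (Q j + i)))) y z} := by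
        have h2 : {z | ReflTransGen (Step e (E (Q j) i) (ρ (R (Q j + i)))) y z} =
            {z | ReflTransGen (Step e (E (Q j) i) (ρ (R (Q j + i)))) y' z} := hyy'
        rw [h2]
        exact ReflTransGen.refl
      have hi : i < N (Q j) := by rw [← hy]; exact hκN (Q j) y
      exact hEbd (Q j) i hi _ _ h1
  obtain ⟨A, -, -, h3, ⟨J, hJ⟩, hcov⟩ := fib_bar (Q := Q) (R := R) (T := T) (rm := rm) (κ := κ)
    hd ρ hf hlab hrm hcol hfib (fun _ => 0) (fun _ => ∅) (Set.range f) subset_rfl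
    (fun j hj => absurd hj (Nat.not_lt_zero _)) (fun j hj => absurd hj (Nat.not_lt_zero _))
    (fun j => ⟨0, fun i => (bd_empty hd _ _).mono Set.inter_subset_left le_rfl le_rfl⟩)
    ⟨0, fun _ _ => rfl⟩
  choose D hD using h3
  refine ⟨Q J, ∑ j ∈ Finset.range J, D j,
    fun g => {x | ∃ j, x ∈ A j ∧ Q j + κ j (f x) = g}, ?_, ?_⟩
  · intro x
    obtain ⟨j, hj⟩ := hcov x ⟨x, rfl⟩
    have hjJ : j < J := by
      by_contra h
      rw [hJ j (not_lt.1 h)] at hj
      exact hj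
    refine ⟨Q j + κ j (f x), ?_, j, hj, rfl⟩
    have h1 : κ j (f x) < N (Q j) := hκN (Q j) (f x)
    have h2 : Q (j + 1) ≤ Q J := hQmono hjJ
    have h3 := hQ j
    omega
  · intro g hg
    by_cases hne : ∃ j x, x ∈ A j ∧ Q j + κ j (f x) = g
    swap
    · refine (bd_empty hd (R g) _).mono ?_ le_rfl le_rfl
      rintro x ⟨j, hx⟩
      exact absurd ⟨j, x, hx⟩ hne
    obtain ⟨j, x₀, hx₀, hx₀g⟩ := hne
    have hjJ : j < J := by
      by_contra h
      rw [hJ j (not_lt.1 h)] at hx₀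
      exact hx₀
    have hrange : ∀ j x, x ∈ A j → Q j + κ j (f x) = g → Q j ≤ g ∧ g < Q (j + 1) := by
      intro j x _ hg
      have h1 : κ j (f x) < N (Q j) := hκN (Q j) (f x)
      have h3 := hQ j
      omega
    have hjr := hrange j x₀ hx₀ hx₀g
    have hgj : g = Q j + (g - Q j) := by omega
    have hb := hD j (g - Q j)
    rw [← hgj] at hb
    refine hb.mono ?_ le_rfl ?_
    · rintro x ⟨j', hx, hxg⟩
      have hjr' := hrange j' x hx hxg
      have hjj : j' = j := by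
        rcases lt_trichotomy j' j with h | h | h
        · have : Q (j' + 1) ≤ Q j := hQmono h
          omega
        · exact h
        · have : Q (j + 1) ≤ Q j' := hQmono h
          omega
      subst hjj
      refine ⟨hx, ?_⟩
      show κ j' (f x) = g - Q j'
      omega
    · exact Finset.single_le_sum (f := D) (fun _ _ => Nat.zero_le _) (Finset.mem_range.2 hjJ)

end Pool.Agent.Lib.MP_1df68a_gt
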