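import Pool.Agent.Lib.MP_1df68a_gt.Coarse

set_option autoImplicit false

/-! Weighted word length on a group. -/

namespace Pool.Agent.Lib.MP_1df68a_gt

variable {G : Type*} [Group G]

/-- Weighted word length with respect to a set `S` of letters and a weight `w`. -/
noncomputable def len (S : Set G) (w : G → ℕ) (g : G) : ℕ :=
  sInf {n | ∃ l : List G, (∀ s ∈ l, s ∈ S) ∧ l.prod = g ∧ (l.map w).sum = n}

/-- Admissible letters and weights. -/
structure Adm (S : Set G) (w : G → ℕ) : Prop where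
  gen : ∀ g : G, ∃ l : List G, (∀ s ∈ l, s ∈ S) ∧ l.prod = g
  inv : ∀ s ∈ S, s⁻¹ ∈ S
  winv : ∀ s, w s⁻¹ = w s
  pos : ∀ s, 1 ≤ w s
  fin : ∀ n, {s | w s ≤ n}.Finite

variable {S : Set G} {w : G → ℕ}

lemma len_le (l : List G) (hl : ∀ s ∈ l, s ∈ S) : len S w l.prod ≤ (l.map w).sum :=
  Nat.sInf_le ⟨l, hl, rfl, rfl⟩

lemma Adm.exists_list (h : Adm S w) (g : G) :
    ∃ l : List G, (∀ s ∈ l, s ∈ S) ∧ l.prod = g ∧ (l.map w).sum = len S w g := by
  have hne : {n | ∃ l : List G, (∀ s ∈ l, s ∈ S) ∧ l.prod = g ∧ (l.map w).sum = n}.Nonempty := by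
    obtain ⟨l, hl, hp⟩ := h.gen g
    exact ⟨_, l, hl, hp, rfl⟩
  exact Nat.sInf_mem hne

lemma len_one : len S w (1 : G) = 0 := by
  have := len_le (S := S) (w := w) [] (by simp)
  simpa using this

lemma Adm.len_mul (h : Adm S w) (a b : G) : len S w (a * b) ≤ len S w a + len S w b := by
  obtain ⟨l, hl, hp, hs⟩ := h.exists_list a
  obtain ⟨l', hl', hp', hs'⟩ := h.exists_list b
  have := len_le (S := S) (w := w) (l ++ l') (by
    intro s hs
    rcases List.mem_append.1 hs with h | h
    · exact hl _ h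
    · exact hl' _ h)
  simpa [hp, hp', hs, hs'] using this

lemma Adm.len_inv_le (h : Adm S w) (a : G) : len S w a⁻¹ ≤ len S w a := by
  obtain ⟨l, hl, hp, hs⟩ := h.exists_list a
  have h1 := len_le (S := S) (w := w) (l.map (fun x => x⁻¹)).reverse (by
    intro s hs
    rw [List.mem_reverse, List.mem_map] at hs
    obtain ⟨t, ht, rfl⟩ := hs
    exact h.inv _ (hl _ ht))
  rw [← List.prod_inv_reverse, hp] at h1
  refine h1.trans ?_
  rw [← hs, List.map_reverse, List.sum_reverse, List.map_map]
  apply le_of_eq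
  congr 1
  apply List.map_congr_left
  intro x _
  simp [h.winv]

lemma Adm.len_inv (h : Adm S w) (a : G) : len S w a⁻¹ = len S w a := by
  apply le_antisymm (h.len_inv_le a)
  simpa using h.len_inv_le a⁻¹

lemma finite_words {T : Set G} (hT : T.Finite) (k : ℕ) :
    {g : G | ∃ l : List G, l.length ≤ k ∧ (∀ s ∈ l, s ∈ T) ∧ l.prod = g}.Finite := by
  induction k with
  | zero =>
    refine (Set.finite_singleton (1 : G)).subset ?_
    rintro g ⟨l, hl, -, rfl⟩
    have : l = [] := List.length_eq_zero_iff.1 (by omega)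
    simp [this]
  | succ k ih =>
    refine ((Set.finite_singleton (1 : G)).union (Set.Finite.image2 (fun a b => a * b) hT ih)).subset ?_
    rintro g ⟨l, hl, hT', rfl⟩
    rcases l with _ | ⟨s, l⟩
    · left; simp
    · right
      refine ⟨s, hT' s (by simp), l.prod, ⟨l, ?_, fun t ht => hT' t (by simp [ht]), rfl⟩, ?_⟩
      · simpa using hl
      · simp

lemma Adm.finite_ball (h : Adm S w) (n : ℕ) : {g : G | len S w g ≤ n}.Finite := by
  refine (finite_words (h.fin n) n).subset ?_
  intro g hg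
  obtain ⟨l, hl, hp, hs⟩ := h.exists_list g
  have hg' : (l.map w).sum ≤ n := by rw [hs]; exact hg
  refine ⟨l, ?_, ?_, hp⟩
  · have : l.length ≤ (l.map w).sum := by
      clear hl hp hs hg' hg
      induction l with
      | nil => simp
      | cons a l ih =>
        have := h.pos a
        simp only [List.length_cons, List.map_cons, List.sum_cons]
        omega
    omega
  · intro s hsl
    have : w s ≤ (l.map w).sum := List.single_le_sum (by simp) _ (List.mem_map_of_mem hsl)
    exact this.trans hg'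

/-- The left-invariant word pseudometric. -/
noncomputable def wd (S : Set G) (w : G → ℕ) (x y : G) : ℕ := len S w (x⁻¹ * y)

lemma Adm.isPM (h : Adm S w) : IsPM (wd S w) where
  self x := by simp [wd, len_one]
  symm x y := by
    unfold wd
    rw [← h.len_inv (x⁻¹ * y)]
    congr 1
    group
  tri x y z := by
    unfold wd
    have := h.len_mul (x⁻¹ * y) (y⁻¹ * z)
    have e : x⁻¹ * y * (y⁻¹ * z) = x⁻¹ * z := by group
    rwa [e] at this

lemma wd_inv (g x y : G) : wd S w (g * x) (g * y) = wd S w x y := by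
  unfold wd
  congr 1
  group

/-- Paths leaving a set `Z` through a gate `C'`. -/
lemma exit_list {Z C' : Set G} (hexit : ∀ x ∈ Z, ∀ s ∈ S, x * s ∈ Z ∨ x * s ∈ C') :
    ∀ l : List G, (∀ s ∈ l, s ∈ S) → ∀ x ∈ Z, x * l.prod ∉ Z →
      ∃ l₁ l₂ : List G, l = l₁ ++ l₂ ∧ x * l₁.prod ∈ C' := by
  intro l
  induction l with
  | nil => intro _ x hx hx'; simp at hx'; exact absurd hx hx'
  | cons s l ih =>
    intro hl x hx hx'
    rcases hexit x hx s (hl s (by simp)) with h | h
    · obtain ⟨l₁, l₂, h1, h2⟩ := ih (fun t ht => hl t (by simp [ht])) (x * s) h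
        (by simpa [mul_assoc] using hx')
      exact ⟨s :: l₁, l₂, by simp [h1], by simpa [mul_assoc] using h2⟩
    · exact ⟨[s], l, by simp, by simpa using h⟩

lemma Adm.exit (h : Adm S w) {Z C' : Set G}
    (hexit : ∀ x ∈ Z, ∀ s ∈ S, x * s ∈ Z ∨ x * s ∈ C') {x y : G} (hx : x ∈ Z) (hy : y ∉ Z) :
    ∃ c ∈ C', wd S w x c + wd S w c y ≤ wd S w x y := by
  obtain ⟨l, hl, hp, hs⟩ := h.exists_list (x⁻¹ * y)
  obtain ⟨l₁, l₂, h1, h2⟩ := exit_list hexit l hl x hx (by rw [hp]; simpa using hy)
  refine ⟨_, h2, ?_⟩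
  subst h1
  have e1 : wd S w x (x * l₁.prod) ≤ (l₁.map w).sum := by
    unfold wd
    rw [inv_mul_cancel_left]
    exact len_le _ (fun s hs => hl s (by simp [hs]))
  have e2 : wd S w (x * l₁.prod) y ≤ (l₂.map w).sum := by
    unfold wd
    have : (x * l₁.prod)⁻¹ * y = l₂.prod := by
      rw [List.prod_append] at hp
      rw [mul_inv_rev, mul_assoc, ← hp]
      simp
    rw [this]
    exact len_le _ (fun s hs => hl s (by simp [hs]))
  have e3 : ((l₁ ++ l₂).map w).sum = (l₁.map w).sum + (l₂.map w).sum := by simp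
  have e4 : wd S w x y = len S w (x⁻¹ * y) := rfl
  omega

/-- A function on the group which changes by at most one under right multiplication by letters
is Lipschitz. -/
lemma Adm.lipschitz (h : Adm S w) {f : G → ℕ} (hf : ∀ x, ∀ s ∈ S, f (x * s) ≤ f x + 1) (x y : G) :
    f y ≤ f x + wd S w x y := by
  obtain ⟨l, hl, hp, hs⟩ := h.exists_list (x⁻¹ * y)
  have key : ∀ l : List G, (∀ s ∈ l, s ∈ S) → ∀ x, f (x * l.prod) ≤ f x + (l.map w).sum := by
    intro l
    induction l with
    | nil => intro _ x; simp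
    | cons s l ih =>
      intro hl x
      have h1 := ih (fun t ht => hl t (by simp [ht])) (x * s)
      have h2 := hf x s (hl s (by simp))
      have h3 := h.pos s
      have e : x * (s :: l).prod = x * s * l.prod := by simp [mul_assoc]
      rw [e, List.map_cons, List.sum_cons]
      omega
  have := key l hl x
  rw [hp, hs] at this
  simpa [wd] using this

/-- Existence of weights on a countable group. -/
lemma exists_adm [Countable G] (S : Set G) (hS : ∀ s ∈ S, s⁻¹ ∈ S)
    (hgen : ∀ g : G, ∃ l : List G, (∀ s ∈ l, s ∈ S) ∧ l.prod = g) : ∃ w : G → ℕ, Adm S w := by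
  obtain ⟨f, hf⟩ := exists_injective_nat G
  refine ⟨fun g => 1 + f g + f g⁻¹, hgen, hS, ?_, ?_, ?_⟩
  · intro s; simp; ring
  · intro s; omega
  · intro n
    refine Set.Finite.subset ((Set.finite_Iic n).preimage (hf.injOn)) ?_
    intro s hs
    simp only [Set.mem_preimage, Set.mem_Iic]
    have : 1 + f s + f s⁻¹ ≤ n := hs
    omega

end Pool.Agent.Lib.MP_1df68a_gt
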