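import Pool.Agent.Lib.MP_1df68a_gt.Sides

set_option autoImplicit false

/-! Weighted word length where some letters may have weight `0`. -/

namespace Pool.Agent.Lib.MP_1df68a_gt

variable {G : Type*} [Group G]

/-- Admissible letters and (possibly vanishing) weights. -/
structure Adm0 (S : Set G) (w : G → ℕ) : Prop where
  gen : ∀ g : G, ∃ l : List G, (∀ s ∈ l, s ∈ S) ∧ l.prod = g
  inv : ∀ s ∈ S, s⁻¹ ∈ S
  winv : ∀ s, w s⁻¹ = w s

variable {S : Set G} {w : G → ℕ}

lemma Adm.adm0 (h : Adm S w) : Adm0 S w := ⟨h.gen, h.inv, h.winv⟩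

lemma Adm0.exists_list (h : Adm0 S w) (g : G) :
    ∃ l : List G, (∀ s ∈ l, s ∈ S) ∧ l.prod = g ∧ (l.map w).sum = len S w g := by
  have hne : {n | ∃ l : List G, (∀ s ∈ l, s ∈ S) ∧ l.prod = g ∧ (l.map w).sum = n}.Nonempty := by
    obtain ⟨l, hl, hp⟩ := h.gen g
    exact ⟨_, l, hl, hp, rfl⟩
  exact Nat.sInf_mem hne

lemma Adm0.len_mul (h : Adm0 S w) (a b : G) : len S w (a * b) ≤ len S w a + len S w b := by
  obtain ⟨l, hl, hp, hs⟩ := h.exists_list a
  obtain ⟨l', hl', hp', hs'⟩ := h.exists_list b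
  have := len_le (S := S) (w := w) (l ++ l') (by
    intro s hs
    rcases List.mem_append.1 hs with h | h
    · exact hl _ h
    · exact hl' _ h)
  simpa [hp, hp', hs, hs'] using this

lemma Adm0.len_inv_le (h : Adm0 S w) (a : G) : len S w a⁻¹ ≤ len S w a := by
  obtain ⟨l, hl, hp, hs⟩ := h.exists_list a
  have h1 := len_le (S := S) (w := w) (l.map (fun x => x⁻¹)).reverse (by
    intro s hs
    rw [List.mem_reverse, List.mem_map] at hs
    obtain ⟨t, ht, rfl⟩ := hs
    exact h.inv _ (hl _ ht))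
  rw [← List.prod_inv_reverse, hp] at h1
  refine h1.trans ?_
  rw [← hs, List.map_reverse, List.sum_reverse, List.map_map]
  apply le_of_eq
  congr 1
  apply List.map_congr_left
  intro x _
  simp [h.winv]

lemma Adm0.len_inv (h : Adm0 S w) (a : G) : len S w a⁻¹ = len S w a := by
  apply le_antisymm (h.len_inv_le a)
  simpa using h.len_inv_le a⁻¹

lemma Adm0.isPM (h : Adm0 S w) : IsPM (wd S w) where
  self x := by simp [wd, len_one]
  symm x y := by
    unfold wd
    rw [← h.len_inv (x⁻¹ * y)]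
    congr 1
    group
  tri x y z := by
    unfold wd
    have := h.len_mul (x⁻¹ * y) (y⁻¹ * z)
    have e : x⁻¹ * y * (y⁻¹ * z) = x⁻¹ * z := by group
    rwa [e] at this

lemma Adm0.exit (h : Adm0 S w) {Z C' : Set G}
    (hexit : ∀ x ∈ Z, ∀ s ∈ S, x * s ∈ Z ∨ x * s ∈ C') {x y : G} (hx : x ∈ Z) (hy : y ∉ Z) :
    ∃ c ∈ C', wd S w x c + wd S w c y ≤ wd S w x y := by
  obtain ⟨l, hl, hp, hs⟩ := h.exists_list (x⁻¹ * y)
  obtain ⟨l₁, l₂, h1, h2⟩ := exit_list hexit l hl x hx (by rw [hp]; simpa using hy)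
  refine ⟨_, h2, ?_⟩
  subst h1
  have e1 : wd S w x (x * l₁.prod) ≤ (l₁.map w).sum := by
    unfold wd
    rw [inv_mul_cancel_left]
    exact len_le _ (fun s hs => hl s (by simp [hs]))
  have e2 : wd S w (x * l₁.prod) y ≤ (l₂.map w).sum := by
    unfold wd
    have : (x * l₁.prod)⁻¹ * y = l₂.prod := by
      rw [List.prod_append] at hp
      rw [mul_inv_rev, mul_assoc, ← hp]
      simp
    rw [this]
    exact len_le _ (fun s hs => hl s (by simp [hs]))
  have e3 : ((l₁ ++ l₂).map w).sum = (l₁.map w).sum + (l₂.map w).sum := by simp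
  have e4 : wd S w x y = len S w (x⁻¹ * y) := rfl
  omega

/-- A function on the group which changes by at most `w s` under right multiplication by a
letter `s` is Lipschitz. -/
lemma Adm0.lipschitz (h : Adm0 S w) {f : G → ℕ} (hf : ∀ x, ∀ s ∈ S, f (x * s) ≤ f x + w s)
    (x y : G) : f y ≤ f x + wd S w x y := by
  obtain ⟨l, hl, hp, hs⟩ := h.exists_list (x⁻¹ * y)
  have key : ∀ l : List G, (∀ s ∈ l, s ∈ S) → ∀ x, f (x * l.prod) ≤ f x + (l.map w).sum := by
    intro l
    induction l with
    | nil => intro _ x; simp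
    | cons s l ih =>
      intro hl x
      have h1 := ih (fun t ht => hl t (by simp [ht])) (x * s)
      have h2 := hf x s (hl s (by simp))
      have e : x * (s :: l).prod = x * s * l.prod := by simp [mul_assoc]
      rw [e, List.map_cons, List.sum_cons]
      omega
  have := key l hl x
  rw [hp, hs] at this
  simpa [wd] using this

namespace Amalg

variable (M : Amalg G)

lemma Y_C (l : ℕ) : ∀ (i : Bool) (x : G), x ∈ M.Y l i → ∀ c ∈ M.C, x * c ∈ M.Y l i := by
  induction l with
  | zero =>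
    intro i x hx c hc
    exact mul_mem (show x ∈ M.H i from hx) (M.hC i hc)
  | succ l ih =>
    intro i x hx c hc
    by_cases hxi : x ∈ M.H i
    · exact Or.inl (mul_mem hxi (M.hC i hc))
    · have hx' : (M.br i x)⁻¹ * x ∈ M.Y l (!i) := by
        rcases hx with h | h
        · exact absurd h hxi
        · exact h
      obtain ⟨h1, h2, h3⟩ := M.br_spec hxi
      rcases M.a4 _ _ h2 i c (M.hC i hc) with h | h
      · right
        rw [mul_assoc] at h
        rw [M.br_eq' hxi h]
        have := ih (!i) _ hx' c hc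
        rwa [mul_assoc] at this
      · exfalso
        have := mul_mem h (inv_mem hc)
        rw [mul_inv_cancel_right] at this
        exact M.a2 _ _ h2 this

end Amalg

end Pool.Agent.Lib.MP_1df68a_gt
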