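import Pool.Agent.Lib.MP_1df68a_gt.Push

set_option autoImplicit false

/-! Passing between real-valued proper metrics and the word pseudometric. -/

namespace Pool.Agent.Lib.MP_1df68a_gt

open Relation

variable {Γ G : Type*} [Group Γ] [Group G]

lemma exists_bound_len {S : Set G} {w : G → ℕ} (ψ : Γ → G) (d : Γ → Γ → ℝ)
    (hfin : ∀ r : ℝ, Set.Finite {x : Γ | d 1 x ≤ r}) (B : ℝ) :
    ∃ D : ℕ, ∀ g : Γ, d 1 g ≤ B → len S w (ψ g) ≤ D := by
  obtain ⟨D, hD⟩ := ((hfin B).image (fun g => len S w (ψ g))).bddAbove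
  exact ⟨D, fun g hg => hD ⟨g, hg, rfl⟩⟩

lemma exists_bound_dist {S : Set G} {w : G → ℕ} (hw : Adm S w) (ψ : Γ → G)
    (hψ : Function.Injective ψ) (d : Γ → Γ → ℝ) (r : ℕ) :
    ∃ R : ℝ, 0 < R ∧ ∀ g : Γ, len S w (ψ g) ≤ r → d 1 g ≤ R := by
  have hf : {g : Γ | len S w (ψ g) ≤ r}.Finite := (hw.finite_ball r).preimage hψ.injOn
  obtain ⟨R, hR⟩ := (hf.image (fun g => d 1 g)).bddAbove
  refine ⟨max R 1, by positivity, fun g hg => ?_⟩
  exact (hR ⟨g, hg, rfl⟩).trans (le_max_left _ _)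

lemma coarse_of_metric {S : Set G} {w : G → ℕ} (ψ : Γ →* G)
    (d : Γ → Γ → ℝ) (hinv : ∀ g x y, d (g * x) (g * y) = d x y)
    (hfin : ∀ r : ℝ, Set.Finite {x : Γ | d 1 x ≤ r})
    (n : ℕ) (U : ℕ → Set (Set Γ)) (r : ℕ → ℕ) (R : ℕ → ℝ)
    (hR : ∀ k < n, ∀ g, len S w (ψ g) ≤ r k → d 1 g ≤ R k)
    (hbdd : ∀ k < n, ∃ B : ℝ, ∀ V ∈ U k, ∀ x ∈ V, ∀ y ∈ V, d x y ≤ B)
    (hdisj : ∀ k < n, ∀ V ∈ U k, ∀ W ∈ U k, V ≠ W → ∀ x ∈ V, ∀ y ∈ W, R k < d x y) :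
    ∃ D, ∀ k < n, Bd (wd S w) (ψ '' ⋃₀ U k) (r k) D := by
  have hone : ∀ a b : Γ, d 1 (a⁻¹ * b) = d a b := by
    intro a b
    have := hinv a 1 (a⁻¹ * b)
    rw [mul_one, mul_inv_cancel_left] at this
    exact this.symm
  have hwd : ∀ a b : Γ, wd S w (ψ a) (ψ b) = len S w (ψ (a⁻¹ * b)) := by
    intro a b
    simp [wd]
  have key : ∀ k < n, ∃ D, Bd (wd S w) (ψ '' ⋃₀ U k) (r k) D := by
    intro k hk
    obtain ⟨B, hB⟩ := hbdd k hk
    obtain ⟨D, hD⟩ := exists_bound_len (S := S) (w := w) ψ d hfin B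
    refine ⟨D, ?_⟩
    intro x y hxy
    rcases hxy.cases_head with h | ⟨c, hc, _⟩
    · subst h; simp [wd, len_one]
    obtain ⟨a, ⟨V, hV, haV⟩, rfl⟩ := hc.1
    have hstay : ∀ y, ReflTransGen (Step (wd S w) (ψ '' ⋃₀ U k) (r k)) (ψ a) y →
        ∃ b ∈ V, ψ b = y := by
      intro y hxy
      induction hxy with
      | refl => exact ⟨a, haV, rfl⟩
      | tail _ hbc ih =>
        obtain ⟨b, hb, rfl⟩ := ih
        obtain ⟨-, ⟨c, ⟨W, hW, hcW⟩, rfl⟩, hle⟩ := hbc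
        rw [hwd] at hle
        have h1 := hR k hk _ hle
        rw [hone] at h1
        have hVW : V = W := by
          by_contra hne
          exact absurd (hdisj k hk V hV W hW hne b hb c hcW) (not_lt.2 h1)
        subst hVW
        exact ⟨c, hcW, rfl⟩
    obtain ⟨b, hb, rfl⟩ := hstay y hxy
    rw [hwd]
    apply hD
    rw [hone]
    exact hB V hV a haV b hb
  choose! D hD using key
  refine ⟨∑ k ∈ Finset.range n, D k, fun k hk => (hD k hk).mono subset_rfl le_rfl ?_⟩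
  exact Finset.single_le_sum (f := D) (fun _ _ => Nat.zero_le _) (Finset.mem_range.2 hk)

lemma metric_of_coarse {S : Set G} {w : G → ℕ} (hw : Adm S w)
    (d : G → G → ℝ) (hinv : ∀ g x y, d (g * x) (g * y) = d x y)
    (n D : ℕ) (A : ℕ → Set G) (r : ℕ → ℕ) (R : ℕ → ℝ)
    (hR : ∀ k < n, ∀ g, d 1 g ≤ R k → len S w g ≤ r k)
    (hA : ∀ k < n, Bd (wd S w) (A k) (r k) D) (hcov : ∀ x, ∃ k < n, x ∈ A k) :
    ∃ U : ℕ → Set (Set G),
      (∀ k < n, ∃ B : ℝ, ∀ V ∈ U k, ∀ x ∈ V, ∀ y ∈ V, d x y ≤ B) ∧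
      (∀ k < n, ∀ V ∈ U k, ∀ W ∈ U k, V ≠ W → ∀ x ∈ V, ∀ y ∈ W, R k < d x y) ∧
      (∀ x : G, ∃ k < n, ∃ V ∈ U k, x ∈ V) := by
  have hd := hw.isPM
  have hone : ∀ a b : G, d 1 (a⁻¹ * b) = d a b := by
    intro a b
    have := hinv a 1 (a⁻¹ * b)
    rw [mul_one, mul_inv_cancel_left] at this
    exact this.symm
  have hsymm : ∀ k x y, Step (wd S w) (A k) (r k) x y → Step (wd S w) (A k) (r k) y x := by
    rintro k x y ⟨h1, h2, h3⟩
    exact ⟨h2, h1, by rw [hd.symm]; exact h3⟩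
  have hRsymm : ∀ k x y, ReflTransGen (Step (wd S w) (A k) (r k)) x y →
      ReflTransGen (Step (wd S w) (A k) (r k)) y x := by
    intro k x y h
    induction h with
    | refl => exact ReflTransGen.refl
    | tail _ hbc ih => exact ReflTransGen.head (hsymm k _ _ hbc) ih
  refine ⟨fun k => {V | ∃ x ∈ A k, V = {y | ReflTransGen (Step (wd S w) (A k) (r k)) x y}},
    ?_, ?_, ?_⟩
  · intro k hk
    obtain ⟨B, -, hB⟩ := exists_bound_dist hw (fun g : G => g) (fun _ _ h => h) d (2 * D)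
    refine ⟨B, ?_⟩
    rintro V ⟨x0, hx0, rfl⟩ x hx y hy
    rw [← hone]
    apply hB
    have h1 := hA k hk _ _ hx
    have h2 := hA k hk _ _ hy
    have h3 := hd.tri x x0 y
    have h4 := hd.symm x x0
    show wd S w x y ≤ 2 * D
    omega
  · rintro k hk V ⟨x0, hx0, rfl⟩ W ⟨y0, hy0, rfl⟩ hne x hx y hy
    by_contra hlt
    push Not at hlt
    apply hne
    rw [← hone] at hlt
    have hstep : wd S w x y ≤ r k := hR k hk _ hlt
    have hmem : ∀ x0 ∈ A k, ∀ x, ReflTransGen (Step (wd S w) (A k) (r k)) x0 x → x ∈ A k := by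
      intro x0 hx0 x hx
      induction hx with
      | refl => exact hx0
      | tail _ hbc _ => exact hbc.2.1
    have hxy : ReflTransGen (Step (wd S w) (A k) (r k)) x0 y :=
      ReflTransGen.tail hx ⟨hmem x0 hx0 x hx, hmem y0 hy0 y hy, hstep⟩
    have hx0y0 : ReflTransGen (Step (wd S w) (A k) (r k)) x0 y0 := hxy.trans (hRsymm k _ _ hy)
    ext z
    constructor
    · intro hz
      exact (hRsymm k _ _ hx0y0).trans hz
    · intro hz
      exact hx0y0.trans hz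
  · intro x
    obtain ⟨k, hk, hx⟩ := hcov x
    exact ⟨k, hk, _, ⟨x, hx, rfl⟩, ReflTransGen.refl⟩

end Pool.Agent.Lib.MP_1df68a_gt
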