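import Pool.Agent.Lib.MP_1df68a_gt.Tower

set_option autoImplicit false

/-! The abstract amalgam structure on the pushout of groups. -/

namespace Pool.Agent.Lib.MP_1df68a_gt

section Abstract

variable {G : Type*} [Group G] (H : Bool → Subgroup G) (C : Subgroup G)

/-- Alternating products of `n + 1` letters outside `C`, beginning with a letter of `H j`. -/
def RW : ℕ → Bool → Set G
  | 0, j => {x | x ∈ H j ∧ x ∉ C}
  | n + 1, j => {x | ∃ s, s ∈ H j ∧ s ∉ C ∧ ∃ u ∈ RW n (!j), x = s * u}

variable {H C}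

/-- The abstract amalgam structure, from the fact that reduced words are not in `C`. -/
def Amalg.ofKey (hC : ∀ i, C ≤ H i)
    (gen : ∀ g : G, ∃ l : List G, (∀ s ∈ l, ∃ i, s ∈ H i) ∧ l.prod = g)
    (key : ∀ n j x, x ∈ RW H C n j → x ∉ C) : Amalg G := by
  have a3 : ∀ j s, s ∈ H j → s ∉ C → ∀ u, (u ∈ C ∨ u ∈ ⋃ n, RW H C n (!j)) →
      s * u ∈ ⋃ n, RW H C n j := by
    intro j s hs hsC u hu
    rcases hu with hu | hu
    · refine Set.mem_iUnion.2 ⟨0, mul_mem hs (hC j hu), fun h => hsC ?_⟩
      have := mul_mem h (inv_mem hu)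
      simpa using this
    · obtain ⟨n, hn⟩ := Set.mem_iUnion.1 hu
      exact Set.mem_iUnion.2 ⟨n + 1, s, hs, hsC, u, hn, rfl⟩
  have a4 : ∀ n j x, x ∈ RW H C n j → ∀ i, ∀ s ∈ H i,
      x * s ∈ (⋃ n, RW H C n j) ∨ x * s ∈ C := by
    intro n
    induction n with
    | zero =>
      intro j x hx i s hs
      obtain ⟨hxH, hxC⟩ := hx
      by_cases hij : i = j
      · subst hij
        by_cases h : x * s ∈ C
        · exact Or.inr h
        · exact Or.inl (Set.mem_iUnion.2 ⟨0, mul_mem hxH hs, h⟩)
      · have hi : i = !j := by cases i <;> cases j <;> simp_all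
        subst hi
        left
        by_cases h : s ∈ C
        · exact a3 j x hxH hxC s (Or.inl h)
        · exact a3 j x hxH hxC s (Or.inr (Set.mem_iUnion.2 ⟨0, hs, h⟩))
    | succ n ih =>
      rintro j x ⟨t, ht, htC, u, hu, rfl⟩ i s hs
      left
      rw [mul_assoc]
      rcases ih (!j) u hu i s hs with h | h
      · exact a3 j t ht htC _ (Or.inr h)
      · exact a3 j t ht htC _ (Or.inl h)
  have a2 : ∀ j x, x ∈ (⋃ n, RW H C n j) → x ∉ C := by
    intro j x hx
    obtain ⟨n, hn⟩ := Set.mem_iUnion.1 hx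
    exact key n j x hn
  have a2' : ∀ n j x, x ∈ RW H C n j → x ∉ ⋃ n, RW H C n (!j) := by
    intro n
    induction n with
    | zero =>
      rintro j x ⟨hx, hxC⟩ hx'
      have := a3 j x⁻¹ (inv_mem hx) (fun h => hxC (by simpa using inv_mem h)) x (Or.inr hx')
      rw [inv_mul_cancel] at this
      exact a2 j 1 this (one_mem _)
    | succ n ih =>
      rintro j x ⟨s, hs, hsC, u, hu, rfl⟩ hx'
      have := a3 j s⁻¹ (inv_mem hs) (fun h => hsC (by simpa using inv_mem h)) _ (Or.inr hx')
      rw [inv_mul_cancel_left] at this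
      have h2 := ih (!j) u hu
      rw [Bool.not_not] at h2
      exact h2 this
  exact
  { H := H
    C := C
    side := fun j => ⋃ n, RW H C n j
    hC := hC
    a1 := by
      have : ∀ l : List G, (∀ s ∈ l, ∃ i, s ∈ H i) → ∀ x, (x ∈ C ∨ ∃ j, x ∈ ⋃ n, RW H C n j) →
          (x * l.prod ∈ C ∨ ∃ j, x * l.prod ∈ ⋃ n, RW H C n j) := by
        intro l
        induction l with
        | nil => intro _ x hx; simpa using hx
        | cons s l ih =>
          intro hl x hx
          obtain ⟨i, hi⟩ := hl s (by simp)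
          have hxs : x * s ∈ C ∨ ∃ j, x * s ∈ ⋃ n, RW H C n j := by
            rcases hx with hx | ⟨j, hx⟩
            · by_cases h : x * s ∈ C
              · exact Or.inl h
              · exact Or.inr ⟨i, Set.mem_iUnion.2 ⟨0, mul_mem (hC i hx) hi, h⟩⟩
            · obtain ⟨n, hn⟩ := Set.mem_iUnion.1 hx
              rcases a4 n j x hn i s hi with h | h
              · exact Or.inr ⟨j, h⟩
              · exact Or.inl h
          have := ih (fun t ht => hl t (by simp [ht])) (x * s) hxs
          simpa [mul_assoc] using this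
      intro x
      obtain ⟨l, hl, rfl⟩ := gen x
      have := this l hl 1 (Or.inl (one_mem _))
      simpa using this
    a2 := a2
    a2' := by
      intro j x hx
      obtain ⟨n, hn⟩ := Set.mem_iUnion.1 hx
      exact a2' n j x hn
    a3 := a3
    a4 := by
      intro j x hx i s hs
      obtain ⟨n, hn⟩ := Set.mem_iUnion.1 hx
      exact a4 n j x hn i s hs
    a5 := by
      intro j x hx
      obtain ⟨n, hn⟩ := Set.mem_iUnion.1 hx
      cases n with
      | zero => exact ⟨x, hn.1, hn.2, 1, Or.inl (one_mem _), by simp⟩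
      | succ n =>
        obtain ⟨s, hs, hsC, u, hu, rfl⟩ := hn
        exact ⟨s, hs, hsC, u, Or.inr (Set.mem_iUnion.2 ⟨n, hu⟩), rfl⟩
    gen := gen }

end Abstract

open Monoid Monoid.PushoutI

section Pushout

variable {G : Bool → Type*} [∀ i, Group (G i)] {C : Type*} [Group C] {φ : ∀ i, C →* G i}

lemma exists_word : ∀ (n : ℕ) (j : Bool) (x : PushoutI φ),
    x ∈ RW (fun i => (of i : G i →* PushoutI φ).range) (base φ).range n j →
    ∃ w : CoprodI.Word G, Reduced φ w ∧ w.fstIdx = some j ∧ ofCoprodI w.prod = x := by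
  have letter : ∀ (j : Bool) (x : PushoutI φ), x ∈ (of j : G j →* PushoutI φ).range →
      x ∉ (base φ).range → ∃ g : G j, of j g = x ∧ g ∉ (φ j).range ∧ g ≠ 1 := by
    rintro j x ⟨g, rfl⟩ hx
    have hg : g ∉ (φ j).range := by
      rintro ⟨c, rfl⟩
      exact hx ⟨c, (of_apply_eq_base φ j c).symm⟩
    refine ⟨g, rfl, hg, ?_⟩
    rintro rfl
    exact hg (one_mem _)
  intro n
  induction n with
  | zero =>
    rintro j x ⟨hx, hxC⟩
    obtain ⟨g, rfl, hg, hg1⟩ := letter j x hx hxC
    have he : (CoprodI.Word.empty : CoprodI.Word G).fstIdx ≠ some j := by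
      intro h
      simp [CoprodI.Word.fstIdx, CoprodI.Word.empty] at h
    refine ⟨CoprodI.Word.cons g CoprodI.Word.empty he hg1, ?_, by simp, ?_⟩
    · intro a ha
      have : a = ⟨j, g⟩ := by simpa [CoprodI.Word.cons, CoprodI.Word.empty] using ha
      subst this
      exact hg
    · rw [CoprodI.Word.prod_cons]
      simp
  | succ n ih =>
    rintro j x ⟨s, hs, hsC, u, hu, rfl⟩
    obtain ⟨w, hw, hwj, rfl⟩ := ih (!j) u hu
    obtain ⟨g, rfl, hg, hg1⟩ := letter j s hs hsC
    have hne : w.fstIdx ≠ some j := by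
      rw [hwj]
      cases j <;> simp
    refine ⟨CoprodI.Word.cons g w hne hg1, ?_, by simp, ?_⟩
    · intro a ha
      have ha' : a = ⟨j, g⟩ ∨ a ∈ w.toList := by simpa [CoprodI.Word.cons] using ha
      rcases ha' with rfl | ha'
      · exact hg
      · exact hw a ha'
    · rw [CoprodI.Word.prod_cons]
      simp

lemma gen_pushout (g : PushoutI φ) : ∃ l : List (PushoutI φ),
    (∀ s ∈ l, ∃ i, s ∈ (of i : G i →* PushoutI φ).range) ∧ l.prod = g := by
  induction g using PushoutI.induction_on with
  | of i g => exact ⟨[of i g], by simp only [List.mem_singleton, forall_eq]; exact ⟨i, g, rfl⟩, by simp⟩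
  | base c =>
    refine ⟨[base φ c], ?_, by simp⟩
    simp only [List.mem_singleton, forall_eq]
    exact ⟨true, φ true c, of_apply_eq_base φ true c⟩
  | mul x y hx hy =>
    obtain ⟨l, hl, rfl⟩ := hx
    obtain ⟨l', hl', rfl⟩ := hy
    refine ⟨l ++ l', ?_, by simp⟩
    intro s hs
    rcases List.mem_append.1 hs with h | h
    · exact hl s h
    · exact hl' s h

/-- The abstract amalgam structure of the pushout. -/
noncomputable def pushAmalg (hφ : ∀ i, Function.Injective (φ i)) : Amalg (PushoutI φ) :=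
  Amalg.ofKey (H := fun i => (of i : G i →* PushoutI φ).range) (C := (base φ).range)
    (by
      rintro i x ⟨c, rfl⟩
      exact ⟨φ i c, of_apply_eq_base φ i c⟩)
    gen_pushout
    (by
      intro n j x hx hxC
      obtain ⟨w, hw, hwj, rfl⟩ := exists_word n j x hx
      have := hw.eq_empty_of_mem_range hφ hxC
      subst this
      simp [CoprodI.Word.fstIdx, CoprodI.Word.empty] at hwj)

end Pushout

end Pool.Agent.Lib.MP_1df68a_gt
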