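import Pool.Agent.Lib.MP_1df68a_gt.Length

set_option autoImplicit false

/-! Coarse geometry of an amalgam: abstract setting. -/

namespace Pool.Agent.Lib.MP_1df68a_gt

open Relation

/-- Abstract data extracted from an amalgamated free product: two subgroups `H i`, the common
subgroup `C`, and the set `side j` of the elements whose reduced form begins with a letter
of `H j` outside `C`. -/
structure Amalg (G : Type*) [Group G] where
  H : Bool → Subgroup G
  C : Subgroup G
  side : Bool → Set G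
  hC : ∀ i, C ≤ H i
  a1 : ∀ x, x ∈ C ∨ ∃ j, x ∈ side j
  a2 : ∀ j x, x ∈ side j → x ∉ C
  a2' : ∀ j x, x ∈ side j → x ∉ side (!j)
  a3 : ∀ j s, s ∈ H j → s ∉ C → ∀ u, (u ∈ C ∨ u ∈ side (!j)) → s * u ∈ side j
  a4 : ∀ j x, x ∈ side j → ∀ i, ∀ s ∈ H i, x * s ∈ side j ∨ x * s ∈ C
  a5 : ∀ j x, x ∈ side j → ∃ s ∈ H j, s ∉ C ∧ ∃ u, (u ∈ C ∨ u ∈ side (!j)) ∧ x = s * u
  gen : ∀ g : G, ∃ l : List G, (∀ s ∈ l, ∃ i, s ∈ H i) ∧ l.prod = g

namespace Amalg

variable {G : Type*} [Group G] (M : Amalg G)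

/-- The letters. -/
def letters : Set G := {s | ∃ i, s ∈ M.H i}

lemma side_smul {j : Bool} {c x : G} (hc : c ∈ M.C) (hx : x ∈ M.side j) : c * x ∈ M.side j := by
  obtain ⟨s, hs, hsC, u, hu, rfl⟩ := M.a5 j x hx
  rw [← mul_assoc]
  refine M.a3 j _ (mul_mem (M.hC j hc) hs) (fun h => hsC ?_) u hu
  have := mul_mem (inv_mem hc) h
  simpa using this

lemma side_notMem {i : Bool} {x : G} (hx : x ∈ M.side (!i)) : x ∉ M.H i := by
  intro h
  have h1 := M.a3 i x h (M.a2 _ _ hx) 1 (Or.inl (one_mem _))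
  rw [mul_one] at h1
  exact M.a2' i x h1 hx

lemma exists_branch {i : Bool} {y : G} (hy : y ∉ M.H i) :
    ∃ h ∈ M.H i, h⁻¹ * y ∈ M.side (!i) := by
  rcases M.a1 y with h | ⟨j, h⟩
  · exact absurd (M.hC i h) hy
  · by_cases hj : j = i
    · subst hj
      obtain ⟨s, hs, hsC, u, hu, rfl⟩ := M.a5 j y h
      rcases hu with hu | hu
      · exact absurd (mul_mem hs (M.hC j hu)) hy
      · exact ⟨s, hs, by simpa using hu⟩
    · have : j = !i := by cases i <;> cases j <;> simp_all
      subst this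
      exact ⟨1, one_mem _, by simpa using h⟩

lemma branch_unique {i : Bool} {h h' y : G} (hh : h ∈ M.H i) (hh' : h' ∈ M.H i)
    (hy : h⁻¹ * y ∈ M.side (!i)) (hy' : h'⁻¹ * y ∈ M.side (!i)) : h⁻¹ * h' ∈ M.C := by
  by_contra hC
  have h1 := M.a3 i (h⁻¹ * h') (mul_mem (inv_mem hh) hh') hC (h'⁻¹ * y) (Or.inr hy')
  have e : h⁻¹ * h' * (h'⁻¹ * y) = h⁻¹ * y := by group
  rw [e] at h1
  exact M.a2' i _ h1 hy

/-- Canonical representative of a left coset of `C`. -/
noncomputable def rep (g : G) : G := ((QuotientGroup.mk g : G ⧸ M.C)).out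

lemma rep_mem (g : G) : g⁻¹ * M.rep g ∈ M.C := by
  obtain ⟨c, hc⟩ := QuotientGroup.mk_out_eq_mul M.C g
  unfold rep
  rw [hc]
  simp

lemma rep_eq {g g' : G} (h : g⁻¹ * g' ∈ M.C) : M.rep g = M.rep g' := by
  unfold rep
  congr 1
  exact QuotientGroup.eq.2 h

/-- Branch of `y` at the vertex `H i`. -/
noncomputable def br (i : Bool) (y : G) : G := by
  classical
  exact if hy : y ∉ M.H i then M.rep (M.exists_branch hy).choose else 1

lemma br_spec {i : Bool} {y : G} (hy : y ∉ M.H i) :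
    M.br i y ∈ M.H i ∧ (M.br i y)⁻¹ * y ∈ M.side (!i) ∧ M.rep (M.br i y) = M.br i y := by
  classical
  have hb : M.br i y = M.rep (M.exists_branch hy).choose := by
    unfold br
    rw [dif_pos hy]
  obtain ⟨h1, h2⟩ := (M.exists_branch hy).choose_spec
  set h := (M.exists_branch hy).choose with hdef
  have h3 := M.rep_mem h
  rw [hb]
  refine ⟨?_, ?_, ?_⟩
  · have := mul_mem h1 (M.hC i h3)
    simpa using this
  · have := M.side_smul (inv_mem h3) h2
    have e : (h⁻¹ * M.rep h)⁻¹ * (h⁻¹ * y) = (M.rep h)⁻¹ * y := by group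
    rwa [e] at this
  · exact (M.rep_eq h3).symm

lemma br_eq {i : Bool} {h y : G} (hh : h ∈ M.H i) (hy : h⁻¹ * y ∈ M.side (!i)) :
    M.br i y = M.rep h := by
  have hy' : y ∉ M.H i := by
    intro hc
    exact M.side_notMem hy (mul_mem (inv_mem hh) hc)
  obtain ⟨h1, h2, h3⟩ := M.br_spec hy'
  rw [← h3]
  exact (M.rep_eq (M.branch_unique hh h1 hy h2)).symm

lemma br_eq' {i : Bool} {x y : G} (hx : x ∉ M.H i) (hy : (M.br i x)⁻¹ * y ∈ M.side (!i)) :
    M.br i y = M.br i x := by
  obtain ⟨h1, _, h3⟩ := M.br_spec hx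
  rw [M.br_eq h1 hy, h3]

/-- Balls around the vertex `H i` of the Bass-Serre tree. -/
noncomputable def Y : ℕ → Bool → Set G
  | 0, i => {y | y ∈ M.H i}
  | l + 1, i => {y | y ∈ M.H i ∨ (M.br i y)⁻¹ * y ∈ Y l (!i)}

lemma H_subset_Y (l : ℕ) (i : Bool) {y : G} (hy : y ∈ M.H i) : y ∈ M.Y l i := by
  cases l with
  | zero => exact hy
  | succ l => exact Or.inl hy

lemma Y_mono (l : ℕ) : ∀ (i : Bool), M.Y l i ⊆ M.Y (l + 1) i := by
  induction l with
  | zero => intro i y hy; exact Or.inl hy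
  | succ l ih =>
    intro i y hy
    rcases hy with hy | hy
    · exact Or.inl hy
    · exact Or.inr (ih (!i) hy)

lemma Y_mono' {l l' : ℕ} (h : l ≤ l') (i : Bool) : M.Y l i ⊆ M.Y l' i := by
  induction h with
  | refl => exact subset_rfl
  | step _ ih => exact ih.trans (M.Y_mono _ i)

lemma Y_step (l : ℕ) : ∀ (i : Bool) (x : G), x ∈ M.Y l i → ∀ j, ∀ s ∈ M.H j,
    x * s ∈ M.Y (l + 1) i := by
  induction l with
  | zero =>
    intro i x hx j s hs
    by_cases hxs : x * s ∈ M.H i
    · exact Or.inl hxs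
    right
    have hx' : x ∈ M.H i := hx
    have hsi : s ∉ M.H i := fun h => hxs (mul_mem hx' h)
    have hj : j = !i := by
      cases i <;> cases j <;> simp_all
    subst hj
    have h1 : x⁻¹ * (x * s) ∈ M.side (!i) := by
      rw [inv_mul_cancel_left]
      have := M.a3 (!i) s hs (fun h => hsi (M.hC i h)) 1 (Or.inl (one_mem _))
      simpa using this
    have h2 := M.br_eq hx' h1
    rw [h2]
    have h3 := M.rep_mem x
    have e : (M.rep x)⁻¹ * (x * s) = (x⁻¹ * M.rep x)⁻¹ * s := by group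
    rw [e]
    exact mul_mem (M.hC _ (inv_mem h3)) hs
  | succ l ih =>
    intro i x hx j s hs
    by_cases hxi : x ∈ M.H i
    · exact M.Y_mono' (by omega : 1 ≤ l + 1 + 1) i (by
        have := M.H_subset_Y 0 i hxi
        by_cases hxs : x * s ∈ M.H i
        · exact Or.inl hxs
        right
        have hsi : s ∉ M.H i := fun h => hxs (mul_mem hxi h)
        have hj : j = !i := by
          cases i <;> cases j <;> simp_all
        subst hj
        have h1 : x⁻¹ * (x * s) ∈ M.side (!i) := by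
          rw [inv_mul_cancel_left]
          have := M.a3 (!i) s hs (fun h => hsi (M.hC i h)) 1 (Or.inl (one_mem _))
          simpa using this
        have h2 := M.br_eq hxi h1
        rw [h2]
        have h3 := M.rep_mem x
        have e : (M.rep x)⁻¹ * (x * s) = (x⁻¹ * M.rep x)⁻¹ * s := by group
        rw [e]
        exact mul_mem (M.hC _ (inv_mem h3)) hs)
    · have hx' : (M.br i x)⁻¹ * x ∈ M.Y l (!i) := by
        rcases hx with h | h
        · exact absurd h hxi
        · exact h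
      obtain ⟨h1, h2, h3⟩ := M.br_spec hxi
      rcases M.a4 _ _ h2 j s hs with h | h
      · right
        rw [mul_assoc] at h
        rw [M.br_eq' hxi h]
        have := ih (!i) _ hx' j s hs
        rwa [mul_assoc] at this
      · left
        have := mul_mem h1 (M.hC i h)
        rwa [mul_assoc, mul_inv_cancel_left] at this

lemma exists_Y (i : Bool) (g : G) : ∃ l, g ∈ M.Y l i := by
  have key : ∀ l : List G, (∀ s ∈ l, ∃ i, s ∈ M.H i) → ∀ x, (∃ m, x ∈ M.Y m i) →
      ∃ m, x * l.prod ∈ M.Y m i := by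
    intro l
    induction l with
    | nil => intro _ x hx; simpa using hx
    | cons s l ih =>
      intro hl x hx
      obtain ⟨m, hm⟩ := hx
      obtain ⟨j, hj⟩ := hl s (by simp)
      have := ih (fun t ht => hl t (by simp [ht])) (x * s) ⟨m + 1, M.Y_step m i x hm j s hj⟩
      simpa [mul_assoc] using this
  obtain ⟨l, hl, rfl⟩ := M.gen g
  have := key l hl 1 ⟨0, one_mem (M.H i)⟩
  simpa using this

end Amalg

end Pool.Agent.Lib.MP_1df68a_gt
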